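import Pool.Agent.N520.T.Final

set_option autoImplicit false
set_option linter.unusedSectionVars false

open Filter Topology Set Metric MeasureTheory

namespace Pool.Agent.V7H52.AG

open Pool.Agent.H789R2.AN Pool.Agent.Y330.G Pool.Agent.N520.T

variable {X : Type*} [MetricSpace X]

/-- Monotonicity in the scale. -/
theorem lam_scale [CompactSpace X] {g : X ≃ₜ X} {φ : X → ℝ} {B s s' : ℝ} (hφ : ∀ x, |φ x| ≤ B)
    (hs : 0 < s) (h : s ≤ s') (n : ℕ) (L : Set X) : Lam g φ s' n L ≤ Lam g φ s n L :=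
  lam_le fun _ hF hsep => le_lam hφ hs hF (hsep.mono h le_rfl)

/-- Monotonicity in the time. -/
theorem lam_time [CompactSpace X] {g : X ≃ₜ X} {φ : X → ℝ} {B s : ℝ} (hφ : ∀ x, |φ x| ≤ B)
    (hs : 0 < s) (n j : ℕ) (L : Set X) :
    Lam g φ s n L ≤ Real.exp (j * B) * Lam g φ s (n + j) L := by
  refine lam_le fun F hF hsep => ?_
  have h1 := le_lam hφ hs hF (hsep.mono le_rfl (Nat.le_add_right n j))
  have h2 : ps g φ n F ≤ Real.exp (j * B) * ps g φ (n + j) F := by
    unfold ps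
    rw [Finset.mul_sum]
    refine Finset.sum_le_sum fun y _ => ?_
    rw [← Real.exp_add]
    apply Real.exp_le_exp.mpr
    rw [birkhoffSum_add]
    have := (abs_le.mp (bsum_bound g hφ j (g^[n] y))).1
    linarith
  calc ps g φ n F ≤ _ := h2
    _ ≤ _ := by gcongr

/-- The Bowen property at a large scale inside unstable sets. -/
theorem bow_wide [CompactSpace X] {g : X ≃ₜ X} {c : ℝ} (h : LP g c) {φ : X → ℝ} {B e V : ℝ}
    (hφ : ∀ x, |φ x| ≤ B) (he : 0 < e) (hB : Bow g φ e V) : ∃ V' : ℝ, V ≤ V' ∧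
      ∀ (n : ℕ) (y y' : X),
      SR g.symm c y y' → (∀ k < n, dist (g^[k] y) (g^[k] y') ≤ c) →
        |birkhoffSum g φ n y - birkhoffSum g φ n y'| ≤ V' := by
  have hc := h.c_pos
  obtain ⟨j, hj⟩ := pw (c := c) he
  refine ⟨V + 2 * (j + 1) * |B|, by
    have : 0 ≤ 2 * ((j : ℝ) + 1) * |B| := by positivity
    linarith, fun n y y' hyy hn => ?_⟩
  have hBB : ∀ x, |φ x| ≤ |B| := fun x => (hφ x).trans (le_abs_self B)
  have hV0 : 0 ≤ V := (abs_nonneg _).trans (hB 0 y y (by simp))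
  rcases Nat.lt_or_ge n (j + 1) with h1 | h1
  · have h2 := bsum_bound g hBB n y
    have h3 := bsum_bound g hBB n y'
    have h4 : (n : ℝ) * |B| ≤ (j + 1) * |B| := by
      apply mul_le_mul_of_nonneg_right _ (abs_nonneg _)
      exact_mod_cast h1.le
    rw [abs_le] at h2 h3 ⊢
    constructor <;> linarith
  · obtain ⟨m, rfl⟩ : ∃ m, n = m + (j + 1) := ⟨n - (j + 1), by omega⟩
    have hsr : SR g.symm c (g^[m + j] y) (g^[m + j] y') :=
      sr_of g (fun i hi => hn i (by omega)) hyy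
    have h2 : |birkhoffSum g φ m y - birkhoffSum g φ m y'| ≤ V := by
      apply hB
      intro k hk
      have h3 := h.cU _ _ hsr (m + j - k)
      rw [bk g (by omega), bk g (by omega)] at h3
      have e1 : m + j - (m + j - k) = k := by omega
      rw [e1] at h3
      exact h3.trans ((pw_anti hc (by omega)).trans hj)
    have h3 := bsum_bound g hBB (j + 1) (g^[m] y)
    have h4 := bsum_bound g hBB (j + 1) (g^[m] y')
    have h5 : birkhoffSum g φ (m + (j + 1)) y =
        birkhoffSum g φ m y + birkhoffSum g φ (j + 1) (g^[m] y) := birkhoffSum_add _ _ _ _ _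
    have h6 : birkhoffSum g φ (m + (j + 1)) y' =
        birkhoffSum g φ m y' + birkhoffSum g φ (j + 1) (g^[m] y') := birkhoffSum_add _ _ _ _ _
    rw [h5, h6]
    push_cast at h3 h4
    rw [abs_le] at h2 h3 h4 ⊢
    constructor <;> linarith

/-- Change of the scale and of the time. -/
theorem lam_chg [CompactSpace X] {g : X ≃ₜ X} {c : ℝ} (h : LP g c) {φ : X → ℝ} {B e V : ℝ}
    (hφ : ∀ x, |φ x| ≤ B) (he : 0 < e) (hB : Bow g φ e V) {s s' : ℝ} (hs : 0 < s)
    (hs' : 0 < s') (hsc : 2 * s ≤ c) (N : ℕ) : ∃ K > 0, ∀ (n : ℕ) (L : Set X),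
      (∀ y ∈ L, ∀ y' ∈ L, SR g.symm c y y') → Lam g φ s' (n + N) L ≤ K * Lam g φ s n L := by
  classical
  obtain ⟨V', -, hV'⟩ := bow_wide h hφ he hB
  obtain ⟨K, hK⟩ := class_bdd h hs' hsc N
  refine ⟨Real.exp (N * B) * ((K + 1) * Real.exp V'), by positivity, fun n L hL => ?_⟩
  refine lam_le fun F hF hFs => ?_
  have h1 : ps g φ (n + N) F ≤ Real.exp (N * B) * ps g φ n F := by
    unfold ps
    rw [Finset.mul_sum]
    refine Finset.sum_le_sum fun y _ => ?_
    rw [← Real.exp_add]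
    apply Real.exp_le_exp.mpr
    rw [birkhoffSum_add]
    have := (abs_le.mp (bsum_bound g hφ N (g^[n] y))).2
    linarith
  obtain ⟨F₁, hF₁, hs₁, hmax⟩ := exists_max_sep (g := g) hs.le n F
  have hch : ∀ y, ∃ z, y ∈ F → z ∈ F₁ ∧ ∀ k ≤ n, dist (g^[k] y) (g^[k] z) ≤ s := by
    intro y
    by_cases hy : y ∈ F
    · obtain ⟨z, h1, h2⟩ := hmax y hy
      exact ⟨z, fun _ => ⟨h1, h2⟩⟩
    · exact ⟨y, fun h => absurd h hy⟩
  choose π hπ using hch
  have h2 : ps g φ n F ≤ (K + 1) * Real.exp V' * ps g φ n F₁ := by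
    unfold ps
    rw [← Finset.sum_fiberwise_of_maps_to (g := π) (t := F₁) (fun y hy => (hπ y hy).1),
      Finset.mul_sum]
    refine Finset.sum_le_sum fun z hz => ?_
    have h3 : ∀ y ∈ F.filter (fun y => π y = z), Real.exp (birkhoffSum g φ n y) ≤
        Real.exp V' * Real.exp (birkhoffSum g φ n z) := by
      intro y hy
      rw [Finset.mem_filter] at hy
      rw [← Real.exp_add]
      apply Real.exp_le_exp.mpr
      have h4 := (abs_le.mp (hV' n y z (hL y (hF hy.1) z (hF (hF₁ hz))) fun k hk => by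
        have := (hπ y hy.1).2 k hk.le
        rw [hy.2] at this
        linarith [h.c_pos])).2
      linarith
    have h4 : ((F.filter (fun y => π y = z)).card : ℝ) ≤ K + 1 := by
      have h5 : (F.filter (fun y => π y = z)).card ≤ K := by
        refine hK n z _ (fun y hy y' hy' => hL y (hF (Finset.mem_filter.mp hy).1) y'
          (hF (Finset.mem_filter.mp hy').1)) (fun y hy k hk => ?_)
          (hFs.subset (Finset.filter_subset _ _))
        rw [Finset.mem_filter] at hy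
        have := (hπ y hy.1).2 k hk
        rwa [hy.2] at this
      have : ((F.filter (fun y => π y = z)).card : ℝ) ≤ K := by exact_mod_cast h5
      linarith
    calc ∑ y ∈ F.filter (fun y => π y = z), Real.exp (birkhoffSum g φ n y)
        ≤ ∑ y ∈ F.filter (fun y => π y = z), Real.exp V' * Real.exp (birkhoffSum g φ n z) :=
          Finset.sum_le_sum h3
      _ = (F.filter (fun y => π y = z)).card *
          (Real.exp V' * Real.exp (birkhoffSum g φ n z)) := by
          rw [Finset.sum_const, nsmul_eq_mul]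
      _ ≤ (K + 1) * (Real.exp V' * Real.exp (birkhoffSum g φ n z)) := by gcongr
      _ = _ := by ring
  have h3 : ps g φ n F₁ ≤ Lam g φ s n L := le_lam hφ hs (fun z hz => hF (hF₁ hz)) hs₁
  calc ps g φ (n + N) F ≤ Real.exp (N * B) * ps g φ n F := h1
    _ ≤ Real.exp (N * B) * ((K + 1) * Real.exp V' * ps g φ n F₁) := by gcongr
    _ ≤ Real.exp (N * B) * ((K + 1) * Real.exp V' * Lam g φ s n L) := by gcongr
    _ = _ := by ring

/-- Pulling back by the dynamics. -/
theorem lam_shift [CompactSpace X] {g : X ≃ₜ X} {φ : X → ℝ} {B s : ℝ} (hφ : ∀ x, |φ x| ≤ B)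
    (hs : 0 < s) (n j : ℕ) (D : Set X) {t : ℝ}
    (ht : ∀ y ∈ D, t ≤ birkhoffSum g φ j (g.symm^[j] y)) :
    Real.exp t * Lam g φ s n D ≤ Lam g φ s (n + j) (g.symm^[j] '' D) := by
  classical
  have h1 : Lam g φ s n D ≤ Real.exp (-t) * Lam g φ s (n + j) (g.symm^[j] '' D) := by
    refine lam_le fun F hF hsep => ?_
    have h2 := le_lam hφ hs (L := g.symm^[j] '' D) (F := F.image (g.symm^[j])) (by
      rw [Finset.coe_image]
      exact image_mono hF) (sep_back hsep j)
    have h3 : ps g φ n F ≤ Real.exp (-t) * ps g φ (n + j) (F.image (g.symm^[j])) := by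
      unfold ps
      rw [Finset.sum_image (fun a _ b _ hab => g.symm.injective.iterate j hab), Finset.mul_sum]
      refine Finset.sum_le_sum fun y hy => ?_
      rw [← Real.exp_add]
      apply Real.exp_le_exp.mpr
      rw [Nat.add_comm n j, birkhoffSum_add, iterR]
      have := ht y (hF hy)
      linarith
    calc ps g φ n F ≤ _ := h3
      _ ≤ _ := by gcongr
  calc Real.exp t * Lam g φ s n D
      ≤ Real.exp t * (Real.exp (-t) * Lam g φ s (n + j) (g.symm^[j] '' D)) := by gcongr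
    _ = Lam g φ s (n + j) (g.symm^[j] '' D) := by
      rw [← mul_assoc, ← Real.exp_add, add_neg_cancel, Real.exp_zero, one_mul]

/-- Superadditivity over separated pieces. -/
theorem lam_pieces [CompactSpace X] {g : X ≃ₜ X} {φ : X → ℝ} {B s : ℝ} (hφ : ∀ x, |φ x| ≤ B)
    (hs : 0 < s) {n : ℕ} {ι : Type*} (I : Finset ι) (D : ι → Set X)
    (hD : ∀ i ∈ I, ∀ i' ∈ I, i ≠ i' → ∀ y ∈ D i, ∀ y' ∈ D i',
      ∃ k ≤ n, s < dist (g^[k] y) (g^[k] y')) :
    ∑ i ∈ I, Lam g φ s n (D i) ≤ Lam g φ s n (⋃ i ∈ I, D i) := by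
  classical
  induction I using Finset.induction_on with
  | empty => simpa using lam_nonneg hφ hs n _
  | insert i I hi ih =>
    rw [Finset.sum_insert hi, Finset.set_biUnion_insert]
    have h1 := ih fun a ha b hb hab => hD a (Finset.mem_insert_of_mem ha) b
      (Finset.mem_insert_of_mem hb) hab
    have h2 := lam_union_ge (g := g) hφ hs (n := n) (L := D i) (L' := ⋃ i ∈ I, D i) (by
      intro y hy y' hy'
      obtain ⟨a, ha, hy''⟩ := mem_iUnion₂.mp hy'
      exact hD i (Finset.mem_insert_self _ _) a (Finset.mem_insert_of_mem ha)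
        (fun e => hi (by rw [e]; exact ha)) y hy y' hy'')
    linarith

/-- Subadditivity over a finite cover. -/
theorem lam_cover [CompactSpace X] {g : X ≃ₜ X} {φ : X → ℝ} {B s : ℝ} (hφ : ∀ x, |φ x| ≤ B)
    (hs : 0 < s) (n : ℕ) {ι : Type*} (I : Finset ι) (D : ι → Set X) :
    Lam g φ s n (⋃ i ∈ I, D i) ≤ ∑ i ∈ I, Lam g φ s n (D i) := by
  classical
  induction I using Finset.induction_on with
  | empty =>
    simp only [Finset.sum_empty, Finset.notMem_empty, iUnion_of_empty, iUnion_empty]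
    refine lam_le fun F hF _ => ?_
    have : F = ∅ := by
      rw [← Finset.coe_eq_empty]
      exact subset_empty_iff.mp hF
    simp [this, ps]
  | insert i I hi ih =>
    rw [Finset.sum_insert hi, Finset.set_biUnion_insert]
    have h2 := lam_union_le (g := g) hφ hs n (D i) (⋃ i ∈ I, D i)
    linarith

/-- Almost maximal separated sets. -/
theorem lam_half [CompactSpace X] {g : X ≃ₜ X} {φ : X → ℝ} {B s : ℝ} (hφ : ∀ x, |φ x| ≤ B)
    (hs : 0 < s) (n : ℕ) (L : Set X) : ∃ F : Finset X, (F : Set X) ⊆ L ∧ Sep g s n F ∧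
      Lam g φ s n L ≤ 2 * ps g φ n F := by
  by_contra hcon
  push Not at hcon
  have h1 : Lam g φ s n L ≤ Lam g φ s n L / 2 := by
    refine lam_le fun F hF hsep => ?_
    have := hcon F hF hsep
    linarith
  have h0 := lam_nonneg hφ hs (g := g) n L
  have h2 := hcon ∅ (by simp) (fun y hy => by simp at hy)
  simp only [ps, Finset.sum_empty, mul_zero] at h2
  linarith

/-- Change of the scales at a point. -/
theorem lam_pt [CompactSpace X] {g : X ≃ₜ X} {c : ℝ} (h : LP g c) {φ : X → ℝ} {B e V : ℝ}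
    (hφ : ∀ x, |φ x| ≤ B) (he : 0 < e) (hB : Bow g φ e V) {s s' r r' : ℝ} (hs : 0 < s)
    (hsc : 2 * s ≤ c) (hs' : 0 < s') (hr' : 2 * r' ≤ c) (hr : 0 < r) : ∃ j : ℕ, ∃ K > 0,
      ∀ (n : ℕ) (x : X), Lam g φ s' n (Wu g r' x) ≤ K * Lam g φ s n (Wu g r (g.symm^[j] x)) := by
  classical
  have hc := h.c_pos
  obtain ⟨r₁, hr₁0, hr₁r, hr₁c⟩ : ∃ r₁ > 0, r₁ ≤ r ∧ 2 * r₁ ≤ c :=
    ⟨min r (c / 2), lt_min hr (half_pos hc), min_le_left _ _, by
      have := min_le_right r (c / 2)
      linarith⟩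
  obtain ⟨j, hj⟩ := pw (c := c) hr₁0
  obtain ⟨K, hK, hchg⟩ := lam_chg h hφ he hB hs hs' hsc j
  refine ⟨j, Real.exp (j * B) * K, by positivity, fun n x => ?_⟩
  have h1 := lam_shift (g := g) hφ hs' n j (Wu g r' x) (t := -(j * B))
    (fun y _ => (abs_le.mp (bsum_bound g hφ j _)).1)
  have h2 : g.symm^[j] '' Wu g r' x ⊆ Wu g r₁ (g.symm^[j] x) := by
    rintro _ ⟨y, hy, rfl⟩
    exact sr_back h hj (SR.mono hy (by linarith))
  have h3 := hchg n (Wu g r₁ (g.symm^[j] x)) (fun y hy y' hy' =>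
    (sr_tr (SR.symm' hy) hy').mono (by linarith))
  have h4 : Lam g φ s' n (Wu g r' x) ≤
      Real.exp (j * B) * Lam g φ s' (n + j) (g.symm^[j] '' Wu g r' x) := by
    calc Lam g φ s' n (Wu g r' x)
        = Real.exp (j * B) * (Real.exp (-(j * B)) * Lam g φ s' n (Wu g r' x)) := by
          rw [← mul_assoc, ← Real.exp_add, add_neg_cancel, Real.exp_zero, one_mul]
      _ ≤ _ := by gcongr
  have h5 := lam_mono hφ hs' (n := n + j) (g := g) h2
  have h6 := lam_mono hφ hs (n := n) (g := g) (L := Wu g r₁ (g.symm^[j] x))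
    (L' := Wu g r (g.symm^[j] x)) (fun y hy => SR.mono hy hr₁r)
  calc Lam g φ s' n (Wu g r' x)
      ≤ Real.exp (j * B) * Lam g φ s' (n + j) (g.symm^[j] '' Wu g r' x) := h4
    _ ≤ Real.exp (j * B) * Lam g φ s' (n + j) (Wu g r₁ (g.symm^[j] x)) := by gcongr
    _ ≤ Real.exp (j * B) * (K * Lam g φ s n (Wu g r₁ (g.symm^[j] x))) := by gcongr
    _ ≤ Real.exp (j * B) * (K * Lam g φ s n (Wu g r (g.symm^[j] x))) := by gcongr
    _ = _ := by ring

/-- Change of the scales at a fixed point. -/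
theorem lam_fix [CompactSpace X] {g : X ≃ₜ X} {c : ℝ} (h : LP g c) {φ : X → ℝ} {B e V : ℝ}
    (hφ : ∀ x, |φ x| ≤ B) (he : 0 < e) (hB : Bow g φ e V) {s s' r r' : ℝ} (hs : 0 < s)
    (hsc : 2 * s ≤ c) (hs' : 0 < s') (hr' : 2 * r' ≤ c) (hr : 0 < r) : ∃ K > 0,
      ∀ (x : X), g x = x → ∀ n : ℕ, Lam g φ s' n (Wu g r' x) ≤ K * Lam g φ s n (Wu g r x) := by
  obtain ⟨j, K, hK, h1⟩ := lam_pt h hφ he hB hs hsc hs' hr' hr
  refine ⟨K, hK, fun x hx n => ?_⟩
  have := h1 n x
  rwa [fixed_iter (fixed_symm hx)] at this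

end Pool.Agent.V7H52.AG
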