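import Pool.Agent.V7H52.AG.A1

set_option autoImplicit false
set_option linter.unusedSectionVars false

open Filter Topology Set Metric MeasureTheory

namespace Pool.Agent.V7H52.AG

open Pool.Agent.H789R2.AN Pool.Agent.Y330.G Pool.Agent.N520.T

variable {X : Type*} [MetricSpace X]

/-- The pieces of the local unstable set of `q` which follow the repeller, leave it along a
heteroclinic orbit and come to `p`. -/
theorem piece [CompactSpace X] {g : X ≃ₜ X} {φ : X → ℝ}
    {c e V B : ℝ} (h : LP g c)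
    (hB : Bow g φ e V) (hφ : ∀ x, |φ x| ≤ B) {p q : X} (hp : g p = p) (hq : g q = q) {R : Set X}
    (hR : MinAtt g.symm R) (hqR : q ∈ R) {x₀ : X} (hx1 : WS g p x₀) (hx2 : WS g.symm q x₀)
    (hx3 : x₀ ∉ R) {u : ℝ} (hu0 : 0 < u) (huc : 256 * u ≤ c) (hue : 16 * u ≤ e) :
    ∃ (N T J : ℕ) (w : X) (ρ₀ κ : ℝ), 0 < ρ₀ ∧ 0 < κ ∧
      (∀ v ∈ R, ρ₀ ≤ dist w v) ∧
      ∀ (n : ℕ) (b : X), SR g (8 * u) q b → ∃ D : Set X, D ⊆ Wu g (8 * u) q ∧
        (∀ m : ℕ, κ * (Real.exp (birkhoffSum g.symm φ n b) * Lam g φ u m (Wu g u p)) ≤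
          Lam g φ u (m + (n + (N + T) + J)) D) ∧
        ∃ z ∈ R, (∀ k ≤ n, dist (g.symm^[k] b) (g^[N + (n - k)] z) ≤ u) ∧
          (∀ v ∈ D, ∀ k ≤ n + (N + T), dist (g^[k] v) (g^[k] z) ≤ 4 * u ∧
            dist (g^[k] v) (g^[k] z) ≤ 2 * (c * (1 / 2) ^ (n + (N + T) - k))) ∧
          ∀ v ∈ D, dist w (g^[n + (N + T)] v) ≤ ρ₀ / 4 := by
  have hc0 := h.c_pos
  have hps := fixed_symm hp
  have hqs := fixed_symm hq
  have hgR : ∀ k y, g^[k] y ∈ R ↔ y ∈ R := fun k y =>
    inv_iter (fun x => by rw [← hR.1.inv (g x), g.symm_apply_apply]) k y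
  -- the exit point
  obtain ⟨k₀, hk₀⟩ := hx2.eventually_lt hu0
  set w := g.symm^[k₀] x₀ with hw
  have hw1 : SR g.symm u q w := by
    intro k
    have h1 := hk₀ (k + k₀) (by omega)
    rw [Function.iterate_add_apply, Function.iterate_add_apply, fixed_iter hqs k₀] at h1
    exact h1.le
  have hw2 : WS g p w := by
    rw [← WS.iter k₀, hw, iterR, fixed_iter hp]
    exact hx1
  have hw3 : w ∉ R := by
    rw [hw, inv_iter hR.1.inv]
    exact hx3
  obtain ⟨ρ₀, hρ₀, hball⟩ := Metric.isOpen_iff.mp hR.1.closed.isOpen_compl w hw3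
  have hρ₀R : ∀ v ∈ R, ρ₀ ≤ dist w v := by
    intro v hv
    by_contra hcon
    push Not at hcon
    rw [dist_comm] at hcon
    exact hball hcon hv
  -- scales
  obtain ⟨ρ, hρ0, hρu, hρρ⟩ : ∃ ρ > 0, ρ ≤ u / 4 ∧ ρ ≤ ρ₀ / 8 :=
    ⟨min (u / 4) (ρ₀ / 8), lt_min (by linarith) (by linarith), min_le_left _ _, min_le_right _ _⟩
  obtain ⟨δh, hδh, hhol⟩ := hol h hρ0
  obtain ⟨δl, hδl, hloc⟩ := loc_hol h hρ0 (by linarith : 2 * ρ ≤ c)
  obtain ⟨N, hN⟩ := reach h hR hq hqR hu0 hu0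
  obtain ⟨T, hTT⟩ := pw (c := c) (half_pos hδh)
  obtain ⟨J₁, hJ₁⟩ := hw2.eventually_lt (half_pos hδl)
  obtain ⟨j₂, hj₂⟩ := pw (c := c) (show 0 < min (δl / 4) (ρ₀ / 8) from
    lt_min (by linarith) (by linarith))
  obtain ⟨J, hJJ₁, hJj₂⟩ : ∃ J : ℕ, J₁ ≤ J ∧ j₂ ≤ J :=
    ⟨max J₁ j₂, le_max_left _ _, le_max_right _ _⟩
  have hcJ : c * (1 / 2) ^ J ≤ min (δl / 4) (ρ₀ / 8) := (pw_anti hc0 hJj₂).trans hj₂
  have hcJ1 := hcJ.trans (min_le_left _ _)
  have hcJ2 := hcJ.trans (min_le_right _ _)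
  obtain ⟨K, hK, htr⟩ := transport h hφ hB hu0 (by linarith) (s' := u / 2) (by linarith)
    (by linarith) 0
  refine ⟨N, T, J, w, ρ₀, Real.exp (-(V + (N + T + J + 2) * B)) * (Real.exp (-V) / K), hρ₀,
    by positivity, hρ₀R, fun n b hb => ?_⟩
  have hbR : b ∈ R := hR.1.sat q hqR b (WS.of_SR (h.cS _ _ (hb.mono (by linarith))))
  obtain ⟨z, hz1, hz2⟩ := hN (g.symm^[n] b) ((inv_iter hR.1.inv n b).mpr hbR)
  have hzR : z ∈ R := by
    rw [← hgR N]
    exact hR.1.sat _ ((inv_iter hR.1.inv n b).mpr hbR) _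
      (WS.of_SR (h.cS _ _ (hz2.mono (by linarith))))
  have hz3 : SR g u b (g^[n + N] z) := by
    intro k
    have h1 := hz2 (k + n)
    rw [Function.iterate_add_apply, iterR, Function.iterate_add_apply g k n,
      ← Function.iterate_add_apply g n N] at h1
    exact h1
  have hz4 : dist q (g^[n + (N + T)] z) < δh := by
    have h1 := h.cS _ _ ((sr_tr hb hz3).mono (by linarith : 8 * u + u ≤ c)) T
    rw [fixed_iter hq, ← Function.iterate_add_apply] at h1
    have e : T + (n + N) = n + (N + T) := by omega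
    rw [e] at h1
    linarith
  obtain ⟨w', hw'1, hw'2⟩ := hhol u (by linarith) q _ w hz4 hw1
  have hd : dist p (g^[J] w') < δl := by
    have h1 := hJ₁ J hJJ₁
    rw [fixed_iter hp] at h1
    have h2 := h.cS _ _ (hw'1.mono (by linarith)) J
    have := dist_triangle p (g^[J] w) (g^[J] w')
    linarith
  obtain ⟨θ, hθ1, hθ2, hθ3⟩ := hloc u (by linarith) p (g^[J] w') hd
  set t := n + (N + T) with ht
  set D : Set X := g.symm^[t + J] '' (θ '' Wu g u p) with hD
  -- orbits of the points of the piece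
  have f1 : ∀ y ∈ Wu g u p, ∀ k ≤ t, g^[k] (g.symm^[t + J] (θ y)) = g.symm^[t + J - k] (θ y) := by
    intro y _ k hk
    rw [fw g (by omega)]
  have f2 : ∀ k ≤ t, g.symm^[t + J - k] (g^[J] w') = g.symm^[t - k] w' := by
    intro k hk
    have e1 : t + J - k - J = t - k := by omega
    rw [bk' g (show J ≤ t + J - k by omega), e1]
  have f3 : ∀ k ≤ t, g.symm^[t - k] (g^[t] z) = g^[k] z := by
    intro k hk
    have e1 : t - (t - k) = k := by omega
    rw [bk g (show t - k ≤ t by omega), e1]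
  have o1 : ∀ v ∈ D, ∀ k ≤ t, dist (g^[k] v) (g^[k] z) ≤ 4 * u := by
    rintro _ ⟨_, ⟨y, hy, rfl⟩, rfl⟩ k hk
    rw [f1 y hy k hk]
    have h1 := (hθ1 y hy).2 (t + J - k)
    rw [f2 k hk] at h1
    have h2 := hw'2 (t - k)
    rw [f3 k hk] at h2
    have := dist_triangle_left (g.symm^[t + J - k] (θ y)) (g^[k] z) (g.symm^[t - k] w')
    rw [dist_comm (g.symm^[t - k] w') (g^[k] z)] at this
    linarith
  have o2 : ∀ v ∈ D, ∀ k ≤ t, dist (g^[k] v) (g^[k] z) ≤ 2 * (c * (1 / 2) ^ (t - k)) := by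
    rintro _ ⟨_, ⟨y, hy, rfl⟩, rfl⟩ k hk
    rw [f1 y hy k hk]
    have h1 := h.cU _ _ ((hθ1 y hy).2.mono (by linarith)) (t + J - k)
    rw [f2 k hk] at h1
    have h2 := h.cU _ _ (hw'2.mono (by linarith)) (t - k)
    rw [f3 k hk] at h2
    have h3 := pw_anti hc0 (show t - k ≤ t + J - k by omega)
    have := dist_triangle_left (g.symm^[t + J - k] (θ y)) (g^[k] z) (g.symm^[t - k] w')
    rw [dist_comm (g.symm^[t - k] w') (g^[k] z)] at this
    linarith
  have o3 : ∀ v ∈ D, dist w (g^[t] v) ≤ ρ₀ / 4 := by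
    rintro _ ⟨_, ⟨y, hy, rfl⟩, rfl⟩
    rw [f1 y hy t le_rfl]
    have h1 := h.cU _ _ ((hθ1 y hy).2.mono (by linarith)) (t + J - t)
    rw [f2 t le_rfl] at h1
    have e : t + J - t = J := by omega
    rw [Nat.sub_self, e] at h1
    simp only [Function.iterate_zero, id] at h1
    rw [e]
    have h2 := hw'1 0
    simp only [Function.iterate_zero, id] at h2
    have := dist_triangle w w' (g.symm^[J] (θ y))
    linarith
  have o4 : ∀ y ∈ Wu g u p, SR g.symm (5 * u) q (g.symm^[t + J] (θ y)) := by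
    intro y hy k
    rw [← Function.iterate_add_apply]
    have h1 := (hθ1 y hy).2 (k + (t + J))
    have h2 := hw'2 (k + t)
    rw [bk' g (by omega)] at h1 h2
    have e1 : k + (t + J) - J = k + t := by omega
    have e2 : k + t - t = k := by omega
    rw [e1] at h1
    rw [e2] at h2
    have h3 := hz1 k
    have := dist_triangle4 (g.symm^[k] q) (g.symm^[k] z) (g.symm^[k + t] w')
      (g.symm^[k + (t + J)] (θ y))
    linarith
  refine ⟨D, ?_, ?_, z, hzR, ?_, fun v hv k hk => ⟨o1 v hv k hk, o2 v hv k hk⟩, o3⟩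
  · rintro _ ⟨_, ⟨y, hy, rfl⟩, rfl⟩
    exact (o4 y hy).mono (by linarith)
  · intro m
    have h0 := htr m (Wu g u p) (θ '' Wu g u p) θ V (by
      rintro _ ⟨y, hy, rfl⟩ _ ⟨y', hy', rfl⟩
      exact (sr_tr (SR.symm' (hθ1 y hy).2) (hθ1 y' hy').2).mono (by linarith))
      (fun y hy => ⟨y, hy, rfl⟩) (by
      rintro y hy y' hy' ⟨k, hk, h3⟩
      refine ⟨k, by omega, ?_⟩
      have h4 := (hθ1 y hy).1 k
      have h5 := (hθ1 y' hy').1 k
      have := dist_triangle4_right (g^[k] y) (g^[k] y') (g^[k] (θ y)) (g^[k] (θ y'))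
      linarith) (by
      intro y hy
      have h4 := (abs_le.mp (hB m y (θ y) fun k _ => ((hθ1 y hy).1 k).trans (by linarith))).2
      linarith)
    have h1 := lam_shift (g := g) hφ hu0 m (t + J) (θ '' Wu g u p)
      (t := birkhoffSum g.symm φ n b - (V + (N + T + J + 2) * B)) (by
        rintro _ ⟨y, hy, rfl⟩
        have h2 : birkhoffSum g φ (t + J) (g.symm^[t + J] (θ y)) =
            birkhoffSum g φ N (g.symm^[t + J] (θ y)) +
            (birkhoffSum g φ n (g^[N] (g.symm^[t + J] (θ y))) +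
              birkhoffSum g φ (T + J) (g^[n] (g^[N] (g.symm^[t + J] (θ y))))) := by
          rw [← birkhoffSum_add, ← birkhoffSum_add]
          congr 1
          omega
        have h3 := (abs_le.mp (bsum_bound g hφ N (g.symm^[t + J] (θ y)))).1
        have h4 := (abs_le.mp (bsum_bound g hφ (T + J) (g^[n] (g^[N] (g.symm^[t + J] (θ y)))))).1
        have h5 : |birkhoffSum g φ n (g^[N] (g.symm^[t + J] (θ y))) -
            birkhoffSum g φ n (g.symm^[n] b)| ≤ V := by
          apply hB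
          intro k hk
          have h6 := o1 _ ⟨_, ⟨y, hy, rfl⟩, rfl⟩ (k + N) (by omega)
          rw [Function.iterate_add_apply g k N, Function.iterate_add_apply g k N] at h6
          have h7 := hz2 k
          have := dist_triangle_right (g^[k] (g^[N] (g.symm^[t + J] (θ y))))
            (g^[k] (g.symm^[n] b)) (g^[k] (g^[N] z))
          linarith
        have h5' := (abs_le.mp h5).1
        have h8 := bsum_back g hφ n b
        rw [h2]
        push_cast at h4 ⊢
        linarith)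
    refine le_trans ?_ h1
    have h6 : Real.exp (-V) / K * Lam g φ u m (Wu g u p) ≤ Lam g φ u m (θ '' Wu g u p) := by
      rw [div_mul_eq_mul_div, div_le_iff₀ hK]
      calc Real.exp (-V) * Lam g φ u m (Wu g u p)
          ≤ Real.exp (-V) * (K * Real.exp V * Lam g φ u m (θ '' Wu g u p)) := by gcongr
        _ = (Real.exp (-V) * Real.exp V) * (Lam g φ u m (θ '' Wu g u p) * K) := by ring
        _ = Lam g φ u m (θ '' Wu g u p) * K := by
          rw [← Real.exp_add, neg_add_cancel, Real.exp_zero, one_mul]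
    rw [sub_eq_add_neg, Real.exp_add]
    calc Real.exp (-(V + (N + T + J + 2) * B)) * (Real.exp (-V) / K) *
          (Real.exp (birkhoffSum g.symm φ n b) * Lam g φ u m (Wu g u p))
        = Real.exp (birkhoffSum g.symm φ n b) * Real.exp (-(V + (N + T + J + 2) * B)) *
          (Real.exp (-V) / K * Lam g φ u m (Wu g u p)) := by ring
      _ ≤ Real.exp (birkhoffSum g.symm φ n b) * Real.exp (-(V + (N + T + J + 2) * B)) *
          Lam g φ u m (θ '' Wu g u p) := by gcongr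
  · intro k hk
    have h1 := hz2 (n - k)
    rw [fw g (by omega), ← Function.iterate_add_apply] at h1
    have e1 : n - (n - k) = k := by omega
    rw [e1] at h1
    rwa [Nat.add_comm N (n - k)]

/-- The growth of the local unstable set of `q` from the pieces. -/
theorem lemD [CompactSpace X] {g : X ≃ₜ X} {φ : X → ℝ}
    {c e V B : ℝ} (h : LP g c)
    (hB : Bow g φ e V) (hφ : ∀ x, |φ x| ≤ B) {p q : X} (hp : g p = p) (hq : g q = q) {R : Set X}
    (hR : MinAtt g.symm R) (hqR : q ∈ R) {x₀ : X} (hx1 : WS g p x₀) (hx2 : WS g.symm q x₀)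
    (hx3 : x₀ ∉ R) {u : ℝ} (hu0 : 0 < u) (huc : 256 * u ≤ c) (hue : 16 * u ≤ e) :
    ∃ κ > 0, ∀ m : ℕ, κ * ∑ n ∈ Finset.range (m + 1),
      Lam g.symm φ (16 * u) n (Wu g.symm (8 * u) q) * Lam g φ u (m - n) (Wu g u p) ≤
        Lam g φ u m (Wu g (8 * u) q) := by
  classical
  have hc0 := h.c_pos
  obtain ⟨N, T, J, w, ρ₀, κ, hρ₀, hκ, hwR, hpc⟩ := piece h hB hφ hp hq hR hqR hx1 hx2 hx3 hu0 huc hue
  obtain ⟨j', hj'⟩ := pw (c := c) (show 0 < ρ₀ / 8 by linarith)
  have hgR : ∀ k y, y ∈ R → g^[k] y ∈ R := fun k y hy =>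
    (inv_iter (fun x => by rw [← hR.1.inv (g x), g.symm_apply_apply]) k y).mpr hy
  obtain ⟨s₁, hs₁, hs₁u, hs₁ρ⟩ : ∃ s₁ > 0, s₁ ≤ u ∧ s₁ < ρ₀ / 2 :=
    ⟨min u (ρ₀ / 4), lt_min hu0 (by linarith), min_le_left _ _,
      (min_le_right _ _).trans_lt (by linarith)⟩
  obtain ⟨K, hK, hchg⟩ := lam_chg h hφ (by linarith : 0 < e) hB hu0 hs₁ (by linarith) (N + T + J)
  obtain ⟨j₀, hj1, hj2⟩ : ∃ j₀ : ℕ, 1 ≤ j₀ ∧ j' ≤ j₀ :=
    ⟨max 1 j', le_max_left _ _, le_max_right _ _⟩
  have hch : ∀ (n : ℕ) (b : X), ∃ (D : Set X) (z : X), SR g (8 * u) q b →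
      D ⊆ Wu g (8 * u) q ∧
        (∀ m : ℕ, κ * (Real.exp (birkhoffSum g.symm φ n b) * Lam g φ u m (Wu g u p)) ≤
          Lam g φ u (m + (n + (N + T) + J)) D) ∧
        z ∈ R ∧ (∀ k ≤ n, dist (g.symm^[k] b) (g^[N + (n - k)] z) ≤ u) ∧
          (∀ v ∈ D, ∀ k ≤ n + (N + T), dist (g^[k] v) (g^[k] z) ≤ 4 * u ∧
            dist (g^[k] v) (g^[k] z) ≤ 2 * (c * (1 / 2) ^ (n + (N + T) - k))) ∧
          ∀ v ∈ D, dist w (g^[n + (N + T)] v) ≤ ρ₀ / 4 := by
    intro n b
    by_cases hb : SR g (8 * u) q b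
    · obtain ⟨D, h1, h2, z, h4, h5, h6, h7⟩ := hpc n b hb
      exact ⟨D, z, fun _ => ⟨h1, h2, h4, h5, h6, h7⟩⟩
    · exact ⟨∅, b, fun h => absurd h hb⟩
  choose D z hDz using hch
  have hhalf : ∀ n, ∃ F : Finset X, (F : Set X) ⊆ Wu g.symm (8 * u) q ∧ Sep g.symm (16 * u) n F ∧
      Lam g.symm φ (16 * u) n (Wu g.symm (8 * u) q) ≤ 2 * ps g.symm φ n F := fun n =>
    lam_half hφ (by linarith) n _
  choose F hF1 hF2 hF3 using hhalf
  -- one class of times
  have hclass : ∀ (m : ℕ) (S : Finset ℕ), (∀ n ∈ S, n ≤ m) →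
      (∀ n ∈ S, ∀ n' ∈ S, n < n' → n + j₀ ≤ n') →
      κ * ∑ n ∈ S, Lam g.symm φ (16 * u) n (Wu g.symm (8 * u) q) *
        Lam g φ u (m - n) (Wu g u p) ≤ 2 * (K * Lam g φ u m (Wu g (8 * u) q)) := by
    intro m S hSm hgap
    set I : Finset (Σ _ : ℕ, X) := S.sigma F with hI
    have hImem : ∀ a ∈ I, SR g (8 * u) q a.2 := by
      intro a ha
      rw [hI, Finset.mem_sigma] at ha
      exact hF1 a.1 ha.2
    have hIle : ∀ a ∈ I, a.1 ≤ m := by
      intro a ha
      rw [hI, Finset.mem_sigma] at ha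
      exact hSm a.1 ha.1
    have hcross : ∀ a ∈ I, ∀ a' ∈ I, a.1 < a'.1 → ∀ v ∈ D a.1 a.2, ∀ v' ∈ D a'.1 a'.2,
        s₁ < dist (g^[a.1 + (N + T)] v) (g^[a.1 + (N + T)] v') := by
      intro a ha a' ha' hlt v hv v' hv'
      have h1 := hDz a.1 a.2 (hImem a ha)
      have h2 := hDz a'.1 a'.2 (hImem a' ha')
      have hle : a.1 + j₀ ≤ a'.1 := by
        rw [hI, Finset.mem_sigma] at ha ha'
        exact hgap _ ha.1 _ ha'.1 hlt
      have h3 := h1.2.2.2.2.2 v hv
      have h4 := (h2.2.2.2.2.1 v' hv' (a.1 + (N + T)) (by omega)).2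
      have h5 := (pw_anti hc0 (show j' ≤ a'.1 + (N + T) - (a.1 + (N + T)) by omega)).trans hj'
      have h6 := hwR _ (hgR (a.1 + (N + T)) _ h2.2.2.1)
      have := dist_triangle4 w (g^[a.1 + (N + T)] v) (g^[a.1 + (N + T)] v')
        (g^[a.1 + (N + T)] (z a'.1 a'.2))
      linarith
    have hsep : ∀ a ∈ I, ∀ a' ∈ I, a ≠ a' → ∀ v ∈ D a.1 a.2, ∀ v' ∈ D a'.1 a'.2,
        ∃ k ≤ m + (N + T + J), s₁ < dist (g^[k] v) (g^[k] v') := by
      intro a ha a' ha' hne v hv v' hv'
      rcases lt_trichotomy a.1 a'.1 with hlt | heq | hlt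
      · exact ⟨a.1 + (N + T), by
          have := hIle a ha
          omega, hcross a ha a' ha' hlt v hv v' hv'⟩
      · obtain ⟨i, b⟩ := a
        obtain ⟨i', b'⟩ := a'
        simp only at heq
        subst heq
        have hbb : b ≠ b' := fun e => hne (by rw [e])
        have him := hIle _ ha
        have hb1 := hImem _ ha
        have hb2 := hImem _ ha'
        rw [hI, Finset.mem_sigma] at ha ha'
        have h1 := hDz i b hb1
        have h2 := hDz i b' hb2
        obtain ⟨k, hk, h3⟩ := hF2 i b ha.2 b' ha'.2 hbb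
        refine ⟨N + (i - k), by
          simp only at him
          omega, ?_⟩
        have h4 := h1.2.2.2.1 k hk
        have h5 := h2.2.2.2.1 k hk
        have h6 := (h1.2.2.2.2.1 v hv (N + (i - k)) (by omega)).1
        have h7 := (h2.2.2.2.2.1 v' hv' (N + (i - k)) (by omega)).1
        have h8 := dist_triangle4_right (g.symm^[k] b) (g.symm^[k] b') (g^[N + (i - k)] (z i b))
          (g^[N + (i - k)] (z i b'))
        have h9 := dist_triangle4_left (g^[N + (i - k)] v) (g^[N + (i - k)] v')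
          (g^[N + (i - k)] (z i b)) (g^[N + (i - k)] (z i b'))
        linarith
      · refine ⟨a'.1 + (N + T), by
          have := hIle a' ha'
          omega, ?_⟩
        rw [dist_comm]
        exact hcross a' ha' a ha hlt v' hv' v hv
    have h1 := lam_pieces (g := g) hφ hs₁ I (fun a => D a.1 a.2) hsep
    have h2 := lam_mono hφ hs₁ (n := m + (N + T + J)) (g := g)
      (L := ⋃ a ∈ I, D a.1 a.2) (L' := Wu g (8 * u) q)
      (iUnion₂_subset fun a ha => (hDz a.1 a.2 (hImem a ha)).1)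
    have h3 := hchg m (Wu g (8 * u) q) (fun y hy y' hy' =>
      (sr_tr (SR.symm' hy) hy').mono (by linarith))
    have h4 : ∑ a ∈ I, κ * (Real.exp (birkhoffSum g.symm φ a.1 a.2) *
        Lam g φ u (m - a.1) (Wu g u p)) ≤ ∑ a ∈ I, Lam g φ s₁ (m + (N + T + J)) (D a.1 a.2) := by
      refine Finset.sum_le_sum fun a ha => ?_
      have h5 := (hDz a.1 a.2 (hImem a ha)).2.1 (m - a.1)
      have e : m - a.1 + (a.1 + (N + T) + J) = m + (N + T + J) := by
        have := hIle a ha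
        omega
      rw [e] at h5
      exact h5.trans (lam_scale hφ hs₁ hs₁u _ _)
    have h5 : ∑ a ∈ I, κ * (Real.exp (birkhoffSum g.symm φ a.1 a.2) *
        Lam g φ u (m - a.1) (Wu g u p)) =
        κ * ∑ n ∈ S, ps g.symm φ n (F n) * Lam g φ u (m - n) (Wu g u p) := by
      rw [hI, Finset.sum_sigma, Finset.mul_sum]
      refine Finset.sum_congr rfl fun n _ => ?_
      unfold ps
      rw [Finset.sum_mul, Finset.mul_sum]
    have h6 : ∑ n ∈ S, Lam g.symm φ (16 * u) n (Wu g.symm (8 * u) q) *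
        Lam g φ u (m - n) (Wu g u p) ≤
        2 * ∑ n ∈ S, ps g.symm φ n (F n) * Lam g φ u (m - n) (Wu g u p) := by
      rw [Finset.mul_sum]
      refine Finset.sum_le_sum fun n _ => ?_
      have h7 := hF3 n
      have h8 := lam_nonneg (g := g) hφ hu0 (m - n) (Wu g u p)
      calc Lam g.symm φ (16 * u) n (Wu g.symm (8 * u) q) * Lam g φ u (m - n) (Wu g u p)
          ≤ (2 * ps g.symm φ n (F n)) * Lam g φ u (m - n) (Wu g u p) := by gcongr
        _ = _ := by ring
    calc κ * ∑ n ∈ S, Lam g.symm φ (16 * u) n (Wu g.symm (8 * u) q) *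
          Lam g φ u (m - n) (Wu g u p)
        ≤ κ * (2 * ∑ n ∈ S, ps g.symm φ n (F n) * Lam g φ u (m - n) (Wu g u p)) := by gcongr
      _ = 2 * (κ * ∑ n ∈ S, ps g.symm φ n (F n) * Lam g φ u (m - n) (Wu g u p)) := by ring
      _ ≤ _ := by
        rw [← h5]
        linarith
  -- all times
  refine ⟨κ / (j₀ * (2 * K)), by positivity, fun m => ?_⟩
  have hj0 : (0 : ℝ) < j₀ := by exact_mod_cast hj1
  have hsum : ∑ n ∈ Finset.range (m + 1), Lam g.symm φ (16 * u) n (Wu g.symm (8 * u) q) *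
      Lam g φ u (m - n) (Wu g u p) = ∑ i ∈ Finset.range j₀,
        ∑ n ∈ (Finset.range (m + 1)).filter (fun n => n % j₀ = i),
          Lam g.symm φ (16 * u) n (Wu g.symm (8 * u) q) * Lam g φ u (m - n) (Wu g u p) := by
    rw [Finset.sum_fiberwise_of_maps_to]
    intro n _
    exact Finset.mem_range.mpr (Nat.mod_lt _ (by omega))
  have h1 : κ * ∑ n ∈ Finset.range (m + 1), Lam g.symm φ (16 * u) n (Wu g.symm (8 * u) q) *
      Lam g φ u (m - n) (Wu g u p) ≤ j₀ * (2 * (K * Lam g φ u m (Wu g (8 * u) q))) := by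
    rw [hsum, Finset.mul_sum]
    calc _ ≤ ∑ i ∈ Finset.range j₀, 2 * (K * Lam g φ u m (Wu g (8 * u) q)) := by
          refine Finset.sum_le_sum fun i _ => hclass m _ ?_ ?_
          · intro n hn
            have := Finset.mem_range.mp (Finset.mem_filter.mp hn).1
            omega
          · intro n hn n' hn' hlt
            have e1 := (Finset.mem_filter.mp hn).2
            have e2 := (Finset.mem_filter.mp hn').2
            have e3 := Nat.div_add_mod n j₀
            have e4 := Nat.div_add_mod n' j₀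
            have e5 : n / j₀ < n' / j₀ := by
              by_contra hcon
              push Not at hcon
              have := Nat.mul_le_mul_left j₀ hcon
              omega
            have e6 := Nat.mul_le_mul_left j₀ (Nat.succ_le_of_lt e5)
            rw [Nat.mul_succ] at e6
            omega
      _ = _ := by rw [Finset.sum_const, Finset.card_range, nsmul_eq_mul]
  rw [div_mul_eq_mul_div, div_le_iff₀ (by positivity)]
  calc _ ≤ _ := h1
    _ = _ := by ring

end Pool.Agent.V7H52.AG
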