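import Pool.Agent.V7H52.AG.A2

set_option autoImplicit false
set_option linter.unusedSectionVars false

open Filter Topology Set Metric MeasureTheory

namespace Pool.Agent.V7H52.AG

open Pool.Agent.H789R2.AN Pool.Agent.Y330.G Pool.Agent.N520.T

variable {X : Type*} [MetricSpace X]

/-- Uniform connection inside a minimal repeller. -/
theorem conn2 [CompactSpace X] {g : X ≃ₜ X} {c : ℝ} (h : LP g c) {R : Set X}
    (hR : MinAtt g.symm R) {ε η : ℝ} (hε : 0 < ε) (hε1 : ε ≤ c) (hη : 0 < η) :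
    ∃ N : ℕ, ∀ r ∈ R, ∀ v ∈ R, ∃ J ≤ N, ∃ z : X, SR g.symm ε r z ∧ SR g η v (g^[J] z) := by
  refine hR.1.closed.isCompact.induction_on (p := fun S => ∃ N : ℕ, ∀ r ∈ S, ∀ v ∈ R, ∃ J ≤ N,
    ∃ z : X, SR g.symm ε r z ∧ SR g η v (g^[J] z)) ?_ ?_ ?_ ?_
  · exact ⟨0, fun v hv => absurd hv (notMem_empty v)⟩
  · rintro S T hST ⟨N, h1⟩
    exact ⟨N, fun v hv => h1 v (hST hv)⟩
  · rintro S T ⟨N, h1⟩ ⟨N', h2⟩
    refine ⟨max N N', fun r hr v hv => ?_⟩
    rcases hr with hr | hr
    · obtain ⟨J, hJ, h3⟩ := h1 r hr v hv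
      exact ⟨J, hJ.trans (le_max_left _ _), h3⟩
    · obtain ⟨J, hJ, h3⟩ := h2 r hr v hv
      exact ⟨J, hJ.trans (le_max_right _ _), h3⟩
  · intro r hr
    obtain ⟨N, hN⟩ := conn_unif h hR hr (half_pos hε) (half_pos hη)
    obtain ⟨δ, hδ, hh⟩ := hol h (show 0 < min (ε / 2) (η / 2) from
      lt_min (half_pos hε) (half_pos hη))
    refine ⟨ball r δ, mem_nhdsWithin_of_mem_nhds (ball_mem_nhds r hδ), N, fun r' hr' v hv => ?_⟩
    obtain ⟨J, hJ, z, hz1, hz2⟩ := hN v hv
    obtain ⟨z', h1, h2⟩ := hh (ε / 2) (by linarith) r r' z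
      (by rw [dist_comm]; exact hr') hz1
    refine ⟨J, hJ, z', h2.mono ?_, fun k => ?_⟩
    · have := min_le_left (ε / 2) (η / 2)
      linarith
    · have h3 := h1 (k + J)
      rw [Function.iterate_add_apply, Function.iterate_add_apply] at h3
      have h4 := hz2 k
      have h5 := min_le_right (ε / 2) (η / 2)
      have := dist_triangle (g^[k] v) (g^[k] (g^[J] z)) (g^[k] (g^[J] z'))
      linarith

/-- The partition sums of the local unstable sets in a minimal attractor are comparable. -/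
theorem growthA [CompactSpace X] {g : X ≃ₜ X} {c : ℝ} (h : LP g c) {A : Set X}
    (hA : MinAtt g A) {φ : X → ℝ} {B e V : ℝ} (hφ : ∀ x, |φ x| ≤ B)
    (he : 0 < e) (hB : Bow g φ e V) {s : ℝ} (hs : 0 < s) (hse : s ≤ e) (hsc : 2 * s ≤ c) {r' : ℝ}
    (hr'c : r' ≤ c / 2) {ρ : ℝ} (hρ : 0 < ρ) : ∃ C > 0, ∀ (n : ℕ), ∀ x ∈ A, ∀ y ∈ A,
      Lam g φ s n (Wu g r' x) ≤ C * Lam g φ s n (Wu g ρ y) := by
  have hc := h.c_pos
  obtain ⟨ρ₁, hρ₁0, hρ₁ρ, hρ₁c⟩ : ∃ ρ₁ > 0, ρ₁ ≤ ρ ∧ 2 * ρ₁ ≤ c :=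
    ⟨min ρ (c / 2), lt_min hρ (half_pos hc), min_le_left _ _, by
      have := min_le_right ρ (c / 2)
      linarith⟩
  obtain ⟨τ, hτ0, hτs, hτe, hτc⟩ : ∃ τ > 0, 4 * τ ≤ s ∧ τ ≤ e ∧ 4 * τ ≤ c :=
    ⟨min (min s c / 4) e, lt_min (by positivity) he, by
      have := min_le_left (min s c / 4) e
      have := min_le_left s c
      linarith, min_le_right _ _, by
      have := min_le_left (min s c / 4) e
      have := min_le_right s c
      linarith⟩
  obtain ⟨δ, hδ, hh⟩ := hol h hτ0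
  obtain ⟨N, hN'⟩ := conn2 (g := g.symm) h.symm (R := A) hA (ε := min (δ / 2) c) (η := c)
    (lt_min (half_pos hδ) hc) (min_le_right _ _) hc
  have hN : ∀ y ∈ A, ∀ x ∈ A, ∃ J ≤ N, ∃ z : X, SR g.symm c y z ∧ SR g (δ / 2) x (g^[J] z) := by
    intro y hy x hx
    obtain ⟨J, hJ, z, hz1, hz2⟩ := hN' x hx y hy
    refine ⟨J, hJ, g.symm^[J] z, hz2, ?_⟩
    rw [iterR]
    exact SR.mono (g := g) hz1 (min_le_left _ _)
  obtain ⟨J₀, hJ₀⟩ := pw (c := c) (half_pos hρ₁0)
  obtain ⟨K, hK, htr⟩ := transport h hφ hB hs hse (s' := s / 2) (by linarith) hsc (N + J₀)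
  obtain ⟨a₀, ha₀⟩ := hA.1.nonempty
  have hV0 : 0 ≤ V := (abs_nonneg _).trans (hB 0 a₀ a₀ (by simp))
  have hB0 : 0 ≤ B := (abs_nonneg _).trans (hφ a₀)
  refine ⟨K * Real.exp (V + 2 * (N + J₀) * B), by positivity, fun n x hx y hy => ?_⟩
  obtain ⟨J, hJ, z, hz1, hz2⟩ := hN (g^[J₀] y) ((inv_iter hA.1.inv J₀ y).mpr hy) x hx
  have hxz : dist x (g^[J] z) < δ := by
    have := hz2 0
    simp only [Function.iterate_zero, id] at this
    linarith
  have hch : ∀ p, ∃ p', SR g.symm r' x p → SR g τ p p' ∧ SR g.symm (r' + τ) (g^[J] z) p' := by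
    intro p
    by_cases hp : SR g.symm r' x p
    · obtain ⟨p', h3⟩ := hh r' (by linarith) x (g^[J] z) p hxz hp
      exact ⟨p', fun _ => h3⟩
    · exact ⟨p, fun h => absurd h hp⟩
  choose π hπ using hch
  refine (htr n (Wu g r' x) (Wu g ρ₁ y) (fun p => g.symm^[J + J₀] (π p)) (V + 2 * (N + J₀) * B)
    ?_ ?_ ?_ ?_).trans ?_
  · intro a ha b hb
    exact (sr_tr (SR.symm' ha) hb).mono (by linarith)
  · intro p hp i
    have h3 := h.cU _ _ hz1 (i + J₀)
    have h4 := h.cU _ _ ((hπ p hp).2.mono (show r' + τ ≤ c by linarith)) (i + (J + J₀))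
    rw [bk' g (show J₀ ≤ i + J₀ by omega), Nat.add_sub_cancel] at h3
    have e1 : i + (J + J₀) - J = i + J₀ := by omega
    rw [bk' g (show J ≤ i + (J + J₀) by omega), e1,
      Function.iterate_add_apply g.symm i (J + J₀) (π p)] at h4
    have h5 := (pw_anti hc (show J₀ ≤ i + J₀ by omega)).trans hJ₀
    have h6 := (pw_anti hc (show J₀ ≤ i + (J + J₀) by omega)).trans hJ₀
    have := dist_triangle (g.symm^[i] y) (g.symm^[i + J₀] z) (g.symm^[i] (g.symm^[J + J₀] (π p)))
    linarith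
  · rintro p hp p' hp' ⟨k, hk, h3⟩
    refine ⟨k + (J + J₀), by omega, ?_⟩
    rw [fw' g (by omega), fw' g (by omega), Nat.add_sub_cancel]
    have h4 := (hπ p hp).1 k
    have h5 := (hπ p' hp').1 k
    have := dist_triangle4_right (g^[k] p) (g^[k] p') (g^[k] (π p)) (g^[k] (π p'))
    linarith
  · intro p hp
    set q := g.symm^[J + J₀] (π p) with hq
    have h3 : birkhoffSum g φ (J + J₀) q + birkhoffSum g φ n (g^[J + J₀] q) =
        birkhoffSum g φ n q + birkhoffSum g φ (J + J₀) (g^[n] q) := by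
      rw [← birkhoffSum_add, ← birkhoffSum_add, Nat.add_comm]
    rw [hq, iterR, ← hq] at h3
    have h4 := (abs_le.mp (hB n p (π p) fun k _ => ((hπ p hp).1 k).trans hτe)).2
    have h5 := (abs_le.mp (bsum_bound g hφ (J + J₀) q)).1
    have h6 := (abs_le.mp (bsum_bound g hφ (J + J₀) (g^[n] q))).2
    have h7 : ((J + J₀ : ℕ) : ℝ) * B ≤ (N + J₀) * B := by
      apply mul_le_mul_of_nonneg_right _ hB0
      exact_mod_cast (by omega : J + J₀ ≤ N + J₀)
    linarith
  · have h8 := lam_mono hφ hs (n := n) (g := g) (L := Wu g ρ₁ y) (L' := Wu g ρ y)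
      (fun a ha => SR.mono ha hρ₁ρ)
    have h9 : 0 ≤ K * Real.exp (V + 2 * (N + J₀) * B) := by positivity
    exact mul_le_mul_of_nonneg_left h8 h9

/-- Submultiplicativity in a minimal attractor. -/
theorem submul [CompactSpace X] {g : X ≃ₜ X} {c : ℝ} (h : LP g c) {A : Set X}
    (hA : MinAtt g A) {φ : X → ℝ} {B e V : ℝ} (hφ : ∀ x, |φ x| ≤ B)
    (hB : Bow g φ e V) {u : ℝ} (hu : 0 < u) (huc : 16 * u ≤ c) (hue : u ≤ e) {p : X}
    (hpA : p ∈ A) : ∃ C > 0, ∀ n k : ℕ,
      Lam g φ u (n + k) (Wu g u p) ≤ C * (Lam g φ u n (Wu g u p) * Lam g φ u k (Wu g u p)) := by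
  classical
  have hc := h.c_pos
  obtain ⟨j₁, hj₁⟩ := pw (c := c) hu
  obtain ⟨η, hη, hunif⟩ := uc g.symm g.symm.continuous j₁ hu
  obtain ⟨s₁, hs₁, hs₁u, hs₁η⟩ : ∃ s₁ > 0, s₁ ≤ u ∧ s₁ < η :=
    ⟨min u (η / 2), lt_min hu (half_pos hη), min_le_left _ _,
      (min_le_right _ _).trans_lt (by linarith)⟩
  obtain ⟨K, hK, hchg⟩ := lam_chg h hφ (hu.trans_le hue) hB hu hs₁ (by linarith) 0
  obtain ⟨C₁, hC₁, hgr⟩ := growthA h hA hφ (hu.trans_le hue) hB hu hue (by linarith)
    (r' := 2 * u) (by linarith) hu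
  refine ⟨Real.exp V * (K * C₁), by positivity, fun n k => ?_⟩
  refine lam_le fun F hF hFs => ?_
  obtain ⟨F₁, hF₁, hFs₁, hmax⟩ := exists_max_sep (g := g) hu.le n F
  have hch : ∀ y, ∃ z, y ∈ F → z ∈ F₁ ∧ ∀ k ≤ n, dist (g^[k] y) (g^[k] z) ≤ u := by
    intro y
    by_cases hy : y ∈ F
    · obtain ⟨z, h1, h2⟩ := hmax y hy
      exact ⟨z, fun _ => ⟨h1, h2⟩⟩
    · exact ⟨y, fun h => absurd h hy⟩
  choose π hπ using hch
  have hak := lam_nonneg (g := g) hφ hu k (Wu g u p)
  have hcls : ∀ z ∈ F₁, ∑ y ∈ F.filter (fun y => π y = z), Real.exp (birkhoffSum g φ (n + k) y) ≤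
      Real.exp V * (K * C₁) * Lam g φ u k (Wu g u p) * Real.exp (birkhoffSum g φ n z) := by
    intro z hz
    set G := F.filter (fun y => π y = z) with hG
    have hG1 : ∀ y ∈ G, y ∈ Wu g u p ∧ ∀ i ≤ n, dist (g^[i] y) (g^[i] z) ≤ u := by
      intro y hy
      rw [hG, Finset.mem_filter] at hy
      refine ⟨hF hy.1, fun i hi => ?_⟩
      have := (hπ y hy.1).2 i hi
      rwa [hy.2] at this
    have hz1 : z ∈ Wu g u p := hF (hF₁ hz)
    have hzA : g^[n] z ∈ A := (inv_iter hA.1.inv n z).mpr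
      (hA.1.sat p hpA z (WS.of_SR (h.cU _ _ (SR.mono hz1 (by linarith)))))
    have hG2 : ∀ y ∈ G, SR g.symm (2 * u) (g^[n] z) (g^[n] y) := by
      intro y hy i
      rcases le_total i n with hi | hi
      · rw [bk g hi, bk g hi, dist_comm]
        have := (hG1 y hy).2 (n - i) (by omega)
        linarith
      · rw [bk' g hi, bk' g hi]
        exact (sr_tr (SR.symm' hz1) (hG1 y hy).1).mono (by linarith) (i - n)
    have hG3 : Sep g s₁ k (G.image (g^[n])) := by
      intro a ha b hb hab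
      obtain ⟨y, hy, rfl⟩ := Finset.mem_image.mp ha
      obtain ⟨y', hy', rfl⟩ := Finset.mem_image.mp hb
      have hne : y ≠ y' := fun e => hab (by rw [e])
      obtain ⟨i, hi, h3⟩ := hFs y (Finset.mem_filter.mp hy).1 y' (Finset.mem_filter.mp hy').1 hne
      rcases Nat.lt_or_ge i n with hin | hin
      · refine ⟨0, Nat.zero_le _, ?_⟩
        simp only [Function.iterate_zero, id]
        by_contra hcon
        push Not at hcon
        have hsr : SR g.symm c (g^[n] y) (g^[n] y') :=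
          (sr_tr (SR.symm' (hG2 y hy)) (hG2 y' hy')).mono (by linarith)
        have e : n - (n - i) = i := by omega
        rcases le_total (n - i) j₁ with h4 | h4
        · have := hunif (n - i) h4 _ _ (hcon.trans_lt hs₁η)
          rw [bk g (by omega), bk g (by omega), e] at this
          linarith
        · have := h.cU _ _ hsr (n - i)
          rw [bk g (by omega), bk g (by omega), e] at this
          have := this.trans ((pw_anti hc h4).trans hj₁)
          linarith
      · refine ⟨i - n, by omega, ?_⟩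
        rw [← Function.iterate_add_apply, ← Function.iterate_add_apply]
        have e : i - n + n = i := by omega
        rw [e]
        linarith
    have h1 : ps g φ k (G.image (g^[n])) ≤ Lam g φ s₁ k (Wu g (2 * u) (g^[n] z)) :=
      le_lam hφ hs₁ (by
        intro a ha
        rw [Finset.coe_image] at ha
        obtain ⟨y, hy, rfl⟩ := ha
        exact hG2 y hy) hG3
    have h2 := hchg k (Wu g (2 * u) (g^[n] z)) (fun y hy y' hy' =>
      (sr_tr (SR.symm' hy) hy').mono (by linarith))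
    rw [Nat.add_zero] at h2
    have h3 := hgr k _ hzA p hpA
    have h4 : ps g φ k (G.image (g^[n])) ≤ K * C₁ * Lam g φ u k (Wu g u p) := by
      calc ps g φ k (G.image (g^[n])) ≤ K * Lam g φ u k (Wu g (2 * u) (g^[n] z)) := h1.trans h2
        _ ≤ K * (C₁ * Lam g φ u k (Wu g u p)) := by gcongr
        _ = _ := by ring
    calc ∑ y ∈ G, Real.exp (birkhoffSum g φ (n + k) y)
        ≤ ∑ y ∈ G, Real.exp V * Real.exp (birkhoffSum g φ n z) *
          Real.exp (birkhoffSum g φ k (g^[n] y)) := by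
          refine Finset.sum_le_sum fun y hy => ?_
          rw [← Real.exp_add, ← Real.exp_add, birkhoffSum_add]
          apply Real.exp_le_exp.mpr
          have := (abs_le.mp (hB n y z fun i hi => ((hG1 y hy).2 i hi.le).trans hue)).2
          linarith
      _ = Real.exp V * Real.exp (birkhoffSum g φ n z) * ps g φ k (G.image (g^[n])) := by
          unfold ps
          rw [Finset.sum_image (fun a _ b _ hab => g.injective.iterate n hab), Finset.mul_sum]
      _ ≤ Real.exp V * Real.exp (birkhoffSum g φ n z) * (K * C₁ * Lam g φ u k (Wu g u p)) := by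
          gcongr
      _ = _ := by ring
  have h5 : ps g φ n F₁ ≤ Lam g φ u n (Wu g u p) :=
    le_lam hφ hu (fun z hz => hF (hF₁ hz)) hFs₁
  calc ps g φ (n + k) F = ∑ z ∈ F₁, ∑ y ∈ F.filter (fun y => π y = z),
        Real.exp (birkhoffSum g φ (n + k) y) := by
        unfold ps
        rw [Finset.sum_fiberwise_of_maps_to (g := π) (t := F₁) (fun y hy => (hπ y hy).1)]
    _ ≤ ∑ z ∈ F₁, Real.exp V * (K * C₁) * Lam g φ u k (Wu g u p) *
        Real.exp (birkhoffSum g φ n z) := Finset.sum_le_sum hcls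
    _ = Real.exp V * (K * C₁) * Lam g φ u k (Wu g u p) * ps g φ n F₁ := by
        unfold ps
        rw [Finset.mul_sum]
    _ ≤ Real.exp V * (K * C₁) * Lam g φ u k (Wu g u p) * Lam g φ u n (Wu g u p) := by gcongr
    _ = _ := by ring

/-- Supermultiplicativity in a minimal attractor. -/
theorem supmul [CompactSpace X] {g : X ≃ₜ X} {c : ℝ} (h : LP g c) {A : Set X}
    (hA : MinAtt g A) {φ : X → ℝ} {B e V : ℝ} (hφ : ∀ x, |φ x| ≤ B)
    (hB : Bow g φ e V) {u : ℝ} (hu : 0 < u) (huc : 16 * u ≤ c) (hue : u ≤ e) {p : X}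
    (hp : g p = p) (hpA : p ∈ A) : ∃ C > 0, ∀ n k : ℕ,
      Lam g φ u n (Wu g u p) * Lam g φ u k (Wu g u p) ≤ C * Lam g φ u (n + k) (Wu g u p) := by
  classical
  have hc := h.c_pos
  obtain ⟨K, hK, hfix⟩ := lam_fix h hφ (hu.trans_le hue) hB hu (by linarith) (s' := u / 2) (half_pos hu)
    (r' := 2 * u) (by linarith) hu
  obtain ⟨C₁, hC₁, hgr⟩ := growthA h hA hφ (hu.trans_le hue) hB hu hue (by linarith)
    (r' := u) (by linarith) (ρ := u / 4) (by linarith)
  refine ⟨2 * (Real.exp V * (C₁ * K)), by positivity, fun n k => ?_⟩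
  obtain ⟨F, hF, hFs, hhalf⟩ := lam_half (g := g) hφ hu n (Wu g u p)
  have hu2 : 0 < u / 2 := half_pos hu
  set D : X → Set X := fun z => g.symm^[n] '' Wu g (u / 4) (g^[n] z) with hD
  have hD1 : ∀ z, ∀ y ∈ D z, ∀ i ≤ n, dist (g^[i] y) (g^[i] z) ≤ u / 4 := by
    rintro z _ ⟨v, hv, rfl⟩ i hi
    rw [fw g hi, dist_comm]
    have := hv (n - i)
    rw [bk g (by omega)] at this
    have e : n - (n - i) = i := by omega
    rwa [e] at this
  have hD2 : ∀ z ∈ F, D z ⊆ Wu g (2 * u) p := by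
    rintro z hz _ ⟨v, hv, rfl⟩ i
    have h1 := hF hz i
    have h2 := hv (i + n)
    rw [bk' g (by omega), Nat.add_sub_cancel, Function.iterate_add_apply] at h2
    have := dist_triangle (g.symm^[i] p) (g.symm^[i] z) (g.symm^[i] (g.symm^[n] v))
    linarith
  have h1 := lam_pieces (g := g) hφ hu2 (n := k + n) F D (by
    intro z hz z' hz' hne y hy y' hy'
    obtain ⟨i, hi, h2⟩ := hFs z hz z' hz' hne
    refine ⟨i, by omega, ?_⟩
    have h3 := hD1 z y hy i hi
    have h4 := hD1 z' y' hy' i hi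
    have := dist_triangle4_left (g^[i] y) (g^[i] y') (g^[i] z) (g^[i] z')
    linarith)
  have h2 := lam_mono hφ hu2 (n := k + n) (g := g) (iUnion₂_subset hD2)
  have h3 := hfix p hp (k + n)
  have h4 : ∀ z ∈ F, Real.exp (birkhoffSum g φ n z) * Lam g φ u k (Wu g u p) ≤
      Real.exp V * C₁ * Lam g φ (u / 2) (k + n) (D z) := by
    intro z hz
    have hzA : g^[n] z ∈ A := (inv_iter hA.1.inv n z).mpr
      (hA.1.sat p hpA z (WS.of_SR (h.cU _ _ (SR.mono (hF hz) (by linarith)))))
    have h5 := hgr k p hpA _ hzA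
    have h6 := lam_scale (g := g) hφ hu2 (by linarith : u / 2 ≤ u) k (Wu g (u / 4) (g^[n] z))
    have h7 := lam_shift (g := g) hφ hu2 k n (Wu g (u / 4) (g^[n] z))
      (t := birkhoffSum g φ n z - V) (by
        intro v hv
        have := (abs_le.mp (hB n (g.symm^[n] v) z fun i hi =>
          (hD1 z _ ⟨v, hv, rfl⟩ i hi.le).trans (by linarith))).1
        linarith)
    have h8 : Real.exp (birkhoffSum g φ n z) =
        Real.exp V * Real.exp (birkhoffSum g φ n z - V) := by
      rw [← Real.exp_add]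
      congr 1
      ring
    calc Real.exp (birkhoffSum g φ n z) * Lam g φ u k (Wu g u p)
        ≤ Real.exp (birkhoffSum g φ n z) * (C₁ * Lam g φ (u / 2) k (Wu g (u / 4) (g^[n] z))) := by
          have := h5.trans (mul_le_mul_of_nonneg_left h6 hC₁.le)
          gcongr
      _ = Real.exp V * C₁ * (Real.exp (birkhoffSum g φ n z - V) *
          Lam g φ (u / 2) k (Wu g (u / 4) (g^[n] z))) := by rw [h8]; ring
      _ ≤ _ := by gcongr
  have h5 : ps g φ n F * Lam g φ u k (Wu g u p) ≤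
      Real.exp V * C₁ * ∑ z ∈ F, Lam g φ (u / 2) (k + n) (D z) := by
    unfold ps
    rw [Finset.sum_mul, Finset.mul_sum]
    exact Finset.sum_le_sum h4
  have hak := lam_nonneg (g := g) hφ hu k (Wu g u p)
  calc Lam g φ u n (Wu g u p) * Lam g φ u k (Wu g u p)
      ≤ (2 * ps g φ n F) * Lam g φ u k (Wu g u p) := by gcongr
    _ = 2 * (ps g φ n F * Lam g φ u k (Wu g u p)) := by ring
    _ ≤ 2 * (Real.exp V * C₁ * ∑ z ∈ F, Lam g φ (u / 2) (k + n) (D z)) := by gcongr
    _ ≤ 2 * (Real.exp V * C₁ * (K * Lam g φ u (k + n) (Wu g u p))) := by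
        have := h1.trans (h2.trans h3)
        gcongr
    _ = _ := by rw [Nat.add_comm k n]; ring

/-- Almost multiplicative sequences grow purely exponentially. -/
theorem pure_exp {a : ℕ → ℝ} (hpos : ∀ n, 0 < a n) {C : ℝ} (hC : 0 < C)
    (hsub : ∀ n k, a (n + k) ≤ C * (a n * a k)) (hsup : ∀ n k, a n * a k ≤ C * a (n + k)) :
    ∃ α : ℝ, ∀ n : ℕ, Real.exp (n * α) ≤ C * a n ∧ a n ≤ C * Real.exp (n * α) := by
  set K := Real.log C with hK
  set v : ℕ → ℝ := fun n => Real.log (a n) + K with hv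
  set w : ℕ → ℝ := fun n => -Real.log (a n) + K with hw
  have hs1 : ∀ n k, Real.log (a (n + k)) ≤ K + (Real.log (a n) + Real.log (a k)) := by
    intro n k
    have := Real.log_le_log (hpos _) (hsub n k)
    rwa [Real.log_mul hC.ne' (mul_pos (hpos n) (hpos k)).ne',
      Real.log_mul (hpos n).ne' (hpos k).ne'] at this
  have hs2 : ∀ n k, Real.log (a n) + Real.log (a k) ≤ K + Real.log (a (n + k)) := by
    intro n k
    have := Real.log_le_log (mul_pos (hpos n) (hpos k)) (hsup n k)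
    rwa [Real.log_mul hC.ne' (hpos _).ne', Real.log_mul (hpos n).ne' (hpos k).ne'] at this
  have hv1 : Subadditive v := fun n k => by
    simp only [hv]
    have := hs1 n k
    linarith
  have hw1 : Subadditive w := fun n k => by
    simp only [hw]
    have := hs2 n k
    linarith
  have hlow : ∀ n : ℕ, Real.log (a 0) + n * (Real.log (a 1) - K) ≤ Real.log (a n) := by
    intro n
    induction n with
    | zero => simp
    | succ n ih =>
      have := hs2 n 1
      push_cast
      linarith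
  have hup : ∀ n : ℕ, Real.log (a n) ≤ Real.log (a 0) + n * (Real.log (a 1) + K) := by
    intro n
    induction n with
    | zero => simp
    | succ n ih =>
      have := hs1 n 1
      push_cast
      linarith
  have hvb : BddBelow (range fun n : ℕ => v n / n) := by
    refine ⟨-(|Real.log (a 0) + K| + |Real.log (a 1) - K|), ?_⟩
    rintro _ ⟨n, rfl⟩
    simp only
    rcases Nat.eq_zero_or_pos n with hn | hn
    · rw [hn]
      simp only [CharP.cast_eq_zero, div_zero]
      have := abs_nonneg (Real.log (a 0) + K)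
      have := abs_nonneg (Real.log (a 1) - K)
      linarith
    · have hn' : (1 : ℝ) ≤ n := by exact_mod_cast hn
      rw [le_div_iff₀ (by linarith)]
      have h1 := hlow n
      have h2 := neg_abs_le (Real.log (a 0) + K)
      have h3 := neg_abs_le (Real.log (a 1) - K)
      have h4 : |Real.log (a 0) + K| ≤ |Real.log (a 0) + K| * n := by
        have := abs_nonneg (Real.log (a 0) + K)
        nlinarith
      have h5 : -|Real.log (a 1) - K| * n ≤ (Real.log (a 1) - K) * n :=
        mul_le_mul_of_nonneg_right h3 (by linarith)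
      simp only [hv]
      linarith
  have hwb : BddBelow (range fun n : ℕ => w n / n) := by
    refine ⟨-(|-Real.log (a 0) + K| + |Real.log (a 1) + K|), ?_⟩
    rintro _ ⟨n, rfl⟩
    simp only
    rcases Nat.eq_zero_or_pos n with hn | hn
    · rw [hn]
      simp only [CharP.cast_eq_zero, div_zero]
      have := abs_nonneg (-Real.log (a 0) + K)
      have := abs_nonneg (Real.log (a 1) + K)
      linarith
    · have hn' : (1 : ℝ) ≤ n := by exact_mod_cast hn
      rw [le_div_iff₀ (by linarith)]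
      have h1 := hup n
      have h2 := neg_abs_le (-Real.log (a 0) + K)
      have h3 := le_abs_self (Real.log (a 1) + K)
      have h4 : |-Real.log (a 0) + K| ≤ |-Real.log (a 0) + K| * n := by
        have := abs_nonneg (-Real.log (a 0) + K)
        nlinarith
      have h5 : (Real.log (a 1) + K) * n ≤ |Real.log (a 1) + K| * n :=
        mul_le_mul_of_nonneg_right h3 (by linarith)
      simp only [hw]
      linarith
  have t1 := hv1.tendsto_lim hvb
  have t2 := hw1.tendsto_lim hwb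
  have t3 : Tendsto (fun n : ℕ => v n / n + w n / n) atTop (𝓝 (hv1.lim + hw1.lim)) := t1.add t2
  have t4 : Tendsto (fun n : ℕ => v n / n + w n / n) atTop (𝓝 0) := by
    have h1 : (fun n : ℕ => v n / n + w n / n) = fun n : ℕ => (2 * K) / (n : ℝ) := by
      funext n
      simp only [hv, hw]
      rw [← add_div]
      congr 1
      ring
    rw [h1]
    exact tendsto_const_div_atTop_nhds_zero_nat (2 * K)
  have hlim : hv1.lim + hw1.lim = 0 := tendsto_nhds_unique t3 t4
  refine ⟨hv1.lim, fun n => ?_⟩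
  have key : (n : ℝ) * hv1.lim ≤ K + Real.log (a n) ∧ Real.log (a n) ≤ K + n * hv1.lim := by
    rcases Nat.eq_zero_or_pos n with hn | hn
    · rw [hn]
      simp only [CharP.cast_eq_zero, zero_mul, add_zero]
      have h1 := hs1 0 0
      have h2 := hs2 0 0
      rw [Nat.add_zero] at h1 h2
      constructor <;> linarith
    · have hn' : (0 : ℝ) < n := by exact_mod_cast hn
      have h1 := hv1.lim_le_div hvb hn.ne'
      have h2 := hw1.lim_le_div hwb hn.ne'
      rw [le_div_iff₀ hn'] at h1 h2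
      simp only [hv, hw] at h1 h2
      have h3 : hw1.lim = -hv1.lim := by linarith
      rw [h3] at h2
      constructor <;> linarith
  constructor
  · have h1 : C * a n = Real.exp (K + Real.log (a n)) := by
      rw [Real.exp_add, hK, Real.exp_log hC, Real.exp_log (hpos n)]
    rw [h1]
    exact Real.exp_le_exp.mpr key.1
  · have h1 : C * Real.exp (n * hv1.lim) = Real.exp (K + n * hv1.lim) := by
      rw [Real.exp_add, hK, Real.exp_log hC]
    rw [h1, ← Real.exp_log (hpos n)]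
    exact Real.exp_le_exp.mpr key.2

/-- Pure exponential growth in a minimal attractor. -/
theorem pureA [CompactSpace X] {g : X ≃ₜ X} {c : ℝ} (h : LP g c) {A : Set X}
    (hA : MinAtt g A) {φ : X → ℝ} {B e V : ℝ} (hφ : ∀ x, |φ x| ≤ B)
    (hB : Bow g φ e V) {u : ℝ} (hu : 0 < u) (huc : 16 * u ≤ c) (hue : u ≤ e) {p : X}
    (hp : g p = p) (hpA : p ∈ A) : ∃ α : ℝ, ∃ C > 0, ∀ n : ℕ,
      Real.exp (n * α) ≤ C * Lam g φ u n (Wu g u p) ∧
        Lam g φ u n (Wu g u p) ≤ C * Real.exp (n * α) := by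
  obtain ⟨C₁, hC₁, h1⟩ := submul h hA hφ hB hu huc hue hpA
  obtain ⟨C₂, hC₂, h2⟩ := supmul h hA hφ hB hu huc hue hp hpA
  have hpos : ∀ n, 0 < Lam g φ u n (Wu g u p) := fun n =>
    lam_pos hφ hu (x := p) (sr_refl g.symm hu.le p)
  obtain ⟨α, h3⟩ := pure_exp (a := fun n => Lam g φ u n (Wu g u p)) hpos (C := max C₁ C₂)
    (lt_max_of_lt_left hC₁)
    (fun n k => (h1 n k).trans (mul_le_mul_of_nonneg_right (le_max_left _ _)
      (mul_pos (hpos n) (hpos k)).le))
    (fun n k => (h2 n k).trans (mul_le_mul_of_nonneg_right (le_max_right _ _) (hpos _).le))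
  exact ⟨α, max C₁ C₂, lt_max_of_lt_left hC₁, h3⟩

end Pool.Agent.V7H52.AG
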