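import Pool.Agent.V7H52.AG.A3

set_option autoImplicit false
set_option linter.unusedSectionVars false

open Filter Topology Set Metric MeasureTheory

namespace Pool.Agent.V7H52.AG

open Pool.Agent.H789R2.AN Pool.Agent.Y330.G Pool.Agent.N520.T Pool.Agent.H721R2
  Pool.Agent.Y321.PJ

/-- The convolution of two exponential sequences. -/
noncomputable def Z (α β : ℝ) (n : ℕ) : ℝ :=
  ∑ j ∈ Finset.range (n + 1), Real.exp (j * α + ((n : ℝ) - j) * β)

theorem Z_symm (α β : ℝ) (n : ℕ) : Z α β n = Z β α n := by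
  unfold Z
  rw [← Finset.sum_range_reflect]
  refine Finset.sum_congr rfl fun j hj => ?_
  rw [Finset.mem_range] at hj
  have e : ((n + 1 - 1 - j : ℕ) : ℝ) = n - j := by
    rw [Nat.add_sub_cancel, Nat.cast_sub (by omega)]
  rw [e]
  congr 1
  ring

theorem Z_pos (α β : ℝ) (n : ℕ) : 0 < Z α β n :=
  Finset.sum_pos (fun _ _ => Real.exp_pos _) ⟨0, by simp⟩

theorem Z_mid (α β : ℝ) (n : ℕ) : (n + 1) * Real.exp (n * ((α + β) / 2)) ≤ Z α β n := by
  have h1 : Z α β n + Z β α n = ∑ j ∈ Finset.range (n + 1),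
      (Real.exp (j * α + ((n : ℝ) - j) * β) + Real.exp (j * β + ((n : ℝ) - j) * α)) := by
    unfold Z
    rw [Finset.sum_add_distrib]
  have h2 : ∑ j ∈ Finset.range (n + 1), 2 * Real.exp (n * ((α + β) / 2)) ≤ Z α β n + Z β α n := by
    rw [h1]
    refine Finset.sum_le_sum fun j _ => ?_
    set x := Real.exp ((j * α + ((n : ℝ) - j) * β) / 2) with hx
    set y := Real.exp ((j * β + ((n : ℝ) - j) * α) / 2) with hy
    have e1 : Real.exp (j * α + ((n : ℝ) - j) * β) = x ^ 2 := by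
      rw [hx, ← Real.exp_nat_mul]
      congr 1
      push_cast
      ring
    have e2 : Real.exp (j * β + ((n : ℝ) - j) * α) = y ^ 2 := by
      rw [hy, ← Real.exp_nat_mul]
      congr 1
      push_cast
      ring
    have e3 : Real.exp (n * ((α + β) / 2)) = x * y := by
      rw [hx, hy, ← Real.exp_add]
      congr 1
      ring
    rw [e1, e2, e3]
    nlinarith [sq_nonneg (x - y)]
  rw [Finset.sum_const, Finset.card_range, nsmul_eq_mul, Z_symm β α] at h2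
  push_cast at h2
  linarith

theorem Z_left (α β : ℝ) (n : ℕ) : Real.exp (n * α) ≤ Z α β n := by
  unfold Z
  refine le_trans (le_of_eq ?_) (Finset.single_le_sum (f := fun j : ℕ =>
    Real.exp (j * α + ((n : ℝ) - j) * β)) (fun _ _ => (Real.exp_pos _).le)
    (Finset.mem_range.mpr (Nat.lt_succ_self n)))
  simp

theorem Z_lin {α β : ℝ} (h : α ≤ β) (n : ℕ) : (n + 1) * Real.exp (n * α) ≤ Z α β n := by
  unfold Z
  calc (n + 1) * Real.exp (n * α) = ∑ j ∈ Finset.range (n + 1), Real.exp (n * α) := by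
        rw [Finset.sum_const, Finset.card_range, nsmul_eq_mul]
        push_cast
        ring
    _ ≤ _ := by
        refine Finset.sum_le_sum fun j hj => Real.exp_le_exp.mpr ?_
        rw [Finset.mem_range] at hj
        have h1 : (j : ℝ) ≤ n := by exact_mod_cast Nat.lt_succ_iff.mp hj
        nlinarith

/-- The convolution bound from exponential lower bounds. -/
theorem conv_bound {a b W : ℕ → ℝ} {α β C₁ C₂ κ : ℝ} (hκ : 0 < κ)
    (hC₁ : 0 < C₁) (hC₂ : 0 < C₂)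
    (ha : ∀ n : ℕ, Real.exp (n * α) ≤ C₁ * a n) (hb : ∀ n : ℕ, Real.exp (n * β) ≤ C₂ * b n)
    (hW : ∀ m : ℕ, κ * ∑ n ∈ Finset.range (m + 1), a n * b (m - n) ≤ W m) (m : ℕ) :
    Z α β m ≤ C₁ * C₂ / κ * W m := by
  have h1 : Z α β m ≤ C₁ * C₂ * ∑ n ∈ Finset.range (m + 1), a n * b (m - n) := by
    unfold Z
    rw [Finset.mul_sum]
    refine Finset.sum_le_sum fun n hn => ?_
    rw [Finset.mem_range] at hn
    rw [Real.exp_add]
    have h2 := ha n
    have h3 := hb (m - n)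
    rw [Nat.cast_sub (by omega)] at h3
    calc Real.exp (n * α) * Real.exp (((m : ℝ) - n) * β) ≤ (C₁ * a n) * (C₂ * b (m - n)) := by
          apply mul_le_mul h2 h3 (Real.exp_pos _).le
          exact (Real.exp_pos _).le.trans h2
      _ = _ := by ring
  rw [div_mul_eq_mul_div, le_div_iff₀ hκ]
  calc Z α β m * κ ≤ (C₁ * C₂ * ∑ n ∈ Finset.range (m + 1), a n * b (m - n)) * κ := by gcongr
    _ = C₁ * C₂ * (κ * ∑ n ∈ Finset.range (m + 1), a n * b (m - n)) := by ring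
    _ ≤ C₁ * C₂ * W m := by
      have := hW m
      gcongr

variable {X : Type*} [MetricSpace X]

/-- Comparison of two potentials. -/
theorem lam_cmp [CompactSpace X] {g : X ≃ₜ X} {φ ψ : X → ℝ} {B s V : ℝ} (hψ : ∀ x, |ψ x| ≤ B)
    (hs : 0 < s) {n : ℕ} {L : Set X} (hV : ∀ y ∈ L, birkhoffSum g φ n y ≤ birkhoffSum g ψ n y + V) :
    Lam g φ s n L ≤ Real.exp V * Lam g ψ s n L := by
  refine lam_le fun F hF hsep => ?_
  have h1 := le_lam hψ hs hF hsep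
  have h2 : ps g φ n F ≤ Real.exp V * ps g ψ n F := by
    unfold ps
    rw [Finset.mul_sum]
    refine Finset.sum_le_sum fun y hy => ?_
    rw [← Real.exp_add]
    apply Real.exp_le_exp.mpr
    have := hV y (hF hy)
    linarith
  calc ps g φ n F ≤ Real.exp V * ps g ψ n F := h2
    _ ≤ _ := by gcongr

/-- The growth at `q` dominates the convolution. -/
theorem one_lower [CompactSpace X] {g : X ≃ₜ X} {φ : X → ℝ} {c e V B : ℝ} (h : LP g c)
    (hB : Bow g φ e V) (hφ : ∀ x, |φ x| ≤ B) {p q : X} (hp : g p = p) (hq : g q = q) {R : Set X}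
    (hR : MinAtt g.symm R) (hqR : q ∈ R) {x₀ : X} (hx1 : WS g p x₀) (hx2 : WS g.symm q x₀)
    (hx3 : x₀ ∉ R) {u : ℝ} (hu0 : 0 < u) (huc : 256 * u ≤ c) (hue : 16 * u ≤ e) :
    ∃ κ > 0, ∀ m : ℕ, κ * ∑ n ∈ Finset.range (m + 1),
      Lam g.symm φ u n (Wu g.symm u q) * Lam g φ u (m - n) (Wu g u p) ≤
        Lam g φ u m (Wu g u q) := by
  obtain ⟨κ, hκ, h1⟩ := lemD h hB hφ hp hq hR hqR hx1 hx2 hx3 hu0 huc hue
  obtain ⟨K₁, hK₁, h2⟩ := lam_fix (g := g.symm) h.symm hφ (by linarith : 0 < e) hB.symm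
    (s := 16 * u) (s' := u) (r := 8 * u) (r' := u) (by linarith) (by linarith) hu0 (by linarith)
    (by linarith)
  obtain ⟨K₂, hK₂, h3⟩ := lam_fix h hφ (by linarith : 0 < e) hB
    (s := u) (s' := u) (r := u) (r' := 8 * u) hu0 (by linarith) hu0 (by linarith) hu0
  refine ⟨κ / (K₁ * K₂), by positivity, fun m => ?_⟩
  have h4 : ∑ n ∈ Finset.range (m + 1), Lam g.symm φ u n (Wu g.symm u q) *
      Lam g φ u (m - n) (Wu g u p) ≤ K₁ * ∑ n ∈ Finset.range (m + 1),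
      Lam g.symm φ (16 * u) n (Wu g.symm (8 * u) q) * Lam g φ u (m - n) (Wu g u p) := by
    rw [Finset.mul_sum]
    refine Finset.sum_le_sum fun n _ => ?_
    have h5 := h2 q (fixed_symm hq) n
    have h6 := lam_nonneg (g := g) hφ hu0 (m - n) (Wu g u p)
    calc _ ≤ K₁ * Lam g.symm φ (16 * u) n (Wu g.symm (8 * u) q) *
          Lam g φ u (m - n) (Wu g u p) := by gcongr
      _ = _ := by ring
  rw [div_mul_eq_mul_div, div_le_iff₀ (by positivity)]
  calc κ * ∑ n ∈ Finset.range (m + 1), Lam g.symm φ u n (Wu g.symm u q) *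
        Lam g φ u (m - n) (Wu g u p)
      ≤ κ * (K₁ * ∑ n ∈ Finset.range (m + 1),
        Lam g.symm φ (16 * u) n (Wu g.symm (8 * u) q) * Lam g φ u (m - n) (Wu g u p)) := by
        gcongr
    _ = K₁ * (κ * ∑ n ∈ Finset.range (m + 1),
        Lam g.symm φ (16 * u) n (Wu g.symm (8 * u) q) * Lam g φ u (m - n) (Wu g u p)) := by ring
    _ ≤ K₁ * Lam g φ u m (Wu g (8 * u) q) := by
        have := h1 m
        gcongr
    _ ≤ K₁ * (K₂ * Lam g φ u m (Wu g u q)) := by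
        have := h3 q hq m
        gcongr
    _ = _ := by ring

/-- Both sides. -/
theorem both [CompactSpace X] {g : X ≃ₜ X} {φ ψ : X → ℝ} {c e V V' B B' V₁ V₂ : ℝ} (h : LP g c)
    (hB : Bow g φ e V) (hB' : Bow g ψ e V') (hφ : ∀ x, |φ x| ≤ B) (hψ : ∀ x, |ψ x| ≤ B')
    {p q : X} (hp : g p = p) (hq : g q = q) {A R : Set X} (hA : MinAtt g A) (hpA : p ∈ A)
    (hR : MinAtt g.symm R) (hqR : q ∈ R) {x₀ : X} (hx1 : WS g p x₀) (hx2 : WS g.symm q x₀)
    (hx3 : x₀ ∉ R) (hx4 : x₀ ∉ A) {u : ℝ} (hu0 : 0 < u) (huc : 256 * u ≤ c) (hue : 16 * u ≤ e)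
    (hV₁ : ∀ b ∈ R, ∀ n, birkhoffSum g.symm ψ n b ≤ birkhoffSum g.symm φ n b + V₁)
    (hV₂ : ∀ b ∈ A, ∀ n, birkhoffSum g φ n b ≤ birkhoffSum g ψ n b + V₂) :
    ∃ α β C : ℝ, 0 < C ∧ ∀ n : ℕ,
      (Real.exp (n * α) ≤ C * Lam g φ u n (Wu g u p) ∧
        Lam g φ u n (Wu g u p) ≤ C * Real.exp (n * α)) ∧
      (Real.exp (n * β) ≤ C * Lam g.symm ψ u n (Wu g.symm u q) ∧
        Lam g.symm ψ u n (Wu g.symm u q) ≤ C * Real.exp (n * β)) ∧
      Z α β n ≤ C * Lam g φ u n (Wu g u q) ∧ Z α β n ≤ C * Lam g.symm ψ u n (Wu g.symm u p) := by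
  obtain ⟨α, C₁, hC₁, ha⟩ := pureA h hA hφ hB hu0 (by linarith) (by linarith) hp hpA
  obtain ⟨β, C₂, hC₂, hb⟩ := pureA (g := g.symm) h.symm hR hψ hB'.symm hu0 (by linarith)
    (by linarith) (fixed_symm hq) hqR
  obtain ⟨κ₁, hκ₁, h1⟩ := one_lower h hB hφ hp hq hR hqR hx1 hx2 hx3 hu0 huc hue
  obtain ⟨κ₂, hκ₂, h2⟩ := one_lower (g := g.symm) (φ := ψ) h.symm hB'.symm hψ (fixed_symm hq)
    (fixed_symm hp) (R := A) hA hpA (x₀ := x₀) hx2 hx1 hx4 hu0 huc hue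
  have hb' : ∀ n : ℕ, Real.exp (n * β) ≤ (C₂ * Real.exp V₁) *
      Lam g.symm φ u n (Wu g.symm u q) := by
    intro n
    have h3 := lam_cmp (g := g.symm) (φ := ψ) (ψ := φ) hφ hu0 (n := n) (L := Wu g.symm u q)
      (V := V₁) (fun y hy => hV₁ y (hR.1.sat q hqR y
        (WS.of_SR (h.cS _ _ (SR.mono hy (by linarith))))) n)
    calc Real.exp (n * β) ≤ C₂ * Lam g.symm ψ u n (Wu g.symm u q) := (hb n).1
      _ ≤ C₂ * (Real.exp V₁ * Lam g.symm φ u n (Wu g.symm u q)) := by gcongr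
      _ = _ := by ring
  have ha' : ∀ n : ℕ, Real.exp (n * α) ≤ (C₁ * Real.exp V₂) * Lam g ψ u n (Wu g u p) := by
    intro n
    have h3 := lam_cmp (g := g) (φ := φ) (ψ := ψ) hψ hu0 (n := n) (L := Wu g u p)
      (V := V₂) (fun y hy => hV₂ y (hA.1.sat p hpA y
        (WS.of_SR (h.cU _ _ (SR.mono hy (by linarith))))) n)
    calc Real.exp (n * α) ≤ C₁ * Lam g φ u n (Wu g u p) := (ha n).1
      _ ≤ C₁ * (Real.exp V₂ * Lam g ψ u n (Wu g u p)) := by gcongr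
      _ = _ := by ring
  have hz1 := conv_bound (W := fun m => Lam g φ u m (Wu g u q)) hκ₁ (mul_pos hC₂ (Real.exp_pos V₁))
    hC₁ hb' (fun n => (ha n).1) h1
  have hz2 := conv_bound (W := fun m => Lam g.symm ψ u m (Wu g.symm u p)) hκ₂
    (mul_pos hC₁ (Real.exp_pos V₂))
    hC₂ ha' (fun n => (hb n).1) h2
  set D₁ := C₂ * Real.exp V₁ * C₁ / κ₁ with hD₁
  set D₂ := C₁ * Real.exp V₂ * C₂ / κ₂ with hD₂
  have hD₁0 : 0 < D₁ := by positivity
  have hD₂0 : 0 < D₂ := by positivity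
  have m1 : C₁ ≤ C₁ + C₂ + D₁ + D₂ := by linarith
  have m2 : C₂ ≤ C₁ + C₂ + D₁ + D₂ := by linarith
  have m3 : D₁ ≤ C₁ + C₂ + D₁ + D₂ := by linarith
  have m4 : D₂ ≤ C₁ + C₂ + D₁ + D₂ := by linarith
  refine ⟨α, β, C₁ + C₂ + D₁ + D₂, by positivity, fun n => ⟨⟨?_, ?_⟩, ⟨?_, ?_⟩, ?_, ?_⟩⟩
  · exact (ha n).1.trans (mul_le_mul_of_nonneg_right m1 (lam_nonneg hφ hu0 _ _))
  · exact (ha n).2.trans (mul_le_mul_of_nonneg_right m1 (Real.exp_pos _).le)
  · exact (hb n).1.trans (mul_le_mul_of_nonneg_right m2 (lam_nonneg hψ hu0 _ _))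
  · exact (hb n).2.trans (mul_le_mul_of_nonneg_right m2 (Real.exp_pos _).le)
  · rw [Z_symm]
    exact (hz1 n).trans (mul_le_mul_of_nonneg_right m3 (lam_nonneg hφ hu0 _ _))
  · exact (hz2 n).trans (mul_le_mul_of_nonneg_right m4 (lam_nonneg hψ hu0 _ _))

/-- Existence of the attractor, the repeller and the heteroclinic orbit. -/
theorem exists_pq [CompactSpace X] [ConnectedSpace X] {g : X ≃ₜ X} {c : ℝ}
    (h : LP g c) (hfixA : ∀ A, MinAtt g A → ∃ p ∈ A, g p = p)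
    (hfixR : ∀ R, MinAtt g.symm R → ∃ p ∈ R, g.symm p = p)
    (hnt : ¬ ∀ S, IsAtt g S → S = univ) : ∃ (A R : Set X) (p q x₀ : X), MinAtt g A ∧
      MinAtt g.symm R ∧ p ∈ A ∧ q ∈ R ∧ g p = p ∧ g q = q ∧ WS g p x₀ ∧ WS g.symm q x₀ ∧
      x₀ ∉ R ∧ x₀ ∉ A ∧ Disjoint A R ∧ R ⊆ (Bas g (Tot g))ᶜ := by
  push Not at hnt
  obtain ⟨A₀, hA₀, hne⟩ := hnt
  have hnu : ∀ A, MinAtt g A → A ≠ univ := by
    intro A hA e
    apply hne
    have := hA.2 A₀ hA₀ (by rw [e]; exact subset_univ _)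
    rw [e] at this
    exact univ_subset_iff.mp this
  obtain ⟨A, R, hA, hR, hAR⟩ := exists_connection h isOpen_univ univ_nonempty
  have hAne := hnu A hA
  obtain ⟨p, hpA, hp⟩ := hfixA A hA
  obtain ⟨q, hqR, hq⟩ := hfixR R hR
  have hq' : g q = q := fixed_symm (g := g.symm) hq
  obtain ⟨j, k', x₀, -, hx1, hx2⟩ := exists_heteroclinic h hA hR isOpen_univ hAR hpA hqR
  rw [fixed_iter (fixed_symm hp)] at hx1
  rw [fixed_iter hq'] at hx2
  refine ⟨A, R, p, q, x₀, hA, hR, hpA, hqR, hp, hq', hx1, hx2, ?_, ?_, ?_, ?_⟩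
  · exact fun hx => disj h hA hR hAne hpA (hR.1.sat x₀ hx p hx1.symm')
  · exact fun hx => disj h hA hR hAne (hA.1.sat x₀ hx q hx2.symm') hqR
  · rw [Set.disjoint_left]
    exact fun a ha => disj h hA hR hAne ha
  · intro y hy hyB
    obtain ⟨a, ⟨A', hA', haA'⟩, hya⟩ := hyB
    exact disj h hA' hR (hnu A' hA') haA' (hR.1.sat y hy a hya)

end Pool.Agent.V7H52.AG
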