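import Pool.Agent.V7H52.AG.A4

set_option autoImplicit false
set_option linter.unusedSectionVars false

open Filter Topology Set Metric MeasureTheory

namespace Pool.Agent.V7H52.AG

open Pool.Agent.H789R2.AN Pool.Agent.Y330.G Pool.Agent.N520.T Pool.Agent.H721R2
  Pool.Agent.Y321.PJ

section one

variable {X : Type*} [MetricSpace X] [CompactSpace X]

/-- The partition sums of a minimal attractor are bounded by those of a local unstable set. -/
theorem lam_att {g : X ≃ₜ X} {c : ℝ} (h : LP g c) {A : Set X}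
    (hA : MinAtt g A) {φ : X → ℝ} {B e V : ℝ} (hφ : ∀ x, |φ x| ≤ B) (he : 0 < e)
    (hB : Bow g φ e V) {s : ℝ} (hs : 0 < s) {u : ℝ} (hu : 0 < u) (huc : 16 * u ≤ c)
    (hue : u ≤ e) {p : X} (hpA : p ∈ A) : ∃ C > 0, ∀ n : ℕ,
      Lam g φ s n A ≤ C * Lam g φ u n (Wu g u p) := by
  classical
  obtain ⟨s₀, hs₀, hs₀s, hs₀u⟩ : ∃ s₀ > 0, s₀ ≤ s ∧ s₀ ≤ u :=
    ⟨min s u, lt_min hs hu, min_le_left _ _, min_le_right _ _⟩
  have hτ : 0 < s₀ / 8 := by linarith
  obtain ⟨δ, hδ, hlp⟩ := h.lp (s₀ / 8) hτ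
  obtain ⟨t, htA, htf, hcov⟩ := hA.1.closed.isCompact.finite_cover_balls hδ
  obtain ⟨K, hK, htr⟩ := transport h hφ hB hs₀ (hs₀u.trans hue) (s' := s₀ / 2) (by linarith)
    (by linarith) 0
  obtain ⟨K₂, hK₂, hchg⟩ := lam_chg h hφ he hB hu hs₀ (by linarith) 0
  obtain ⟨C₁, hC₁, hgr⟩ := growthA h hA hφ he hB hu hue (by linarith)
    (r' := s₀ / 8) (by linarith) hu
  refine ⟨(htf.toFinset.card + 1) * (K * Real.exp V * (K₂ * C₁)), by positivity, fun n => ?_⟩
  have hpc : ∀ x ∈ htf.toFinset, Lam g φ s₀ n (A ∩ ball x δ) ≤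
      K * Real.exp V * (K₂ * C₁) * Lam g φ u n (Wu g u p) := by
    intro x hx
    rw [htf.mem_toFinset] at hx
    have hch : ∀ y, ∃ z, y ∈ ball x δ → SR g (s₀ / 8) y z ∧ SR g.symm (s₀ / 8) x z := by
      intro y
      by_cases hy : y ∈ ball x δ
      · obtain ⟨z, hz⟩ := hlp y x hy
        exact ⟨z, fun _ => hz⟩
      · exact ⟨y, fun h => absurd h hy⟩
    choose Ψ hΨ using hch
    have h1 := htr n (A ∩ ball x δ) (Wu g (s₀ / 8) x) Ψ V (by
      intro y hy y' hy'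
      exact (sr_tr (SR.symm' hy) hy').mono (by linarith))
      (fun y hy => (hΨ y hy.2).2) (by
      rintro y hy y' hy' ⟨k, hk, h3⟩
      refine ⟨k, by omega, ?_⟩
      have h4 := (hΨ y hy.2).1 k
      have h5 := (hΨ y' hy'.2).1 k
      have := dist_triangle4_right (g^[k] y) (g^[k] y') (g^[k] (Ψ y)) (g^[k] (Ψ y'))
      linarith) (by
      intro y hy
      have h4 := (abs_le.mp (hB n y (Ψ y) fun k _ => ((hΨ y hy.2).1 k).trans (by linarith))).2
      linarith)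
    have h2 := hchg n (Wu g (s₀ / 8) x) (fun y hy y' hy' =>
      (sr_tr (SR.symm' hy) hy').mono (by linarith))
    rw [Nat.add_zero] at h2
    have h3 := hgr n x (htA hx) p hpA
    calc Lam g φ s₀ n (A ∩ ball x δ) ≤ K * Real.exp V * Lam g φ s₀ n (Wu g (s₀ / 8) x) := h1
      _ ≤ K * Real.exp V * (K₂ * Lam g φ u n (Wu g (s₀ / 8) x)) := by gcongr
      _ ≤ K * Real.exp V * (K₂ * (C₁ * Lam g φ u n (Wu g u p))) := by gcongr
      _ = _ := by ring
  have hsub : A ⊆ ⋃ x ∈ htf.toFinset, A ∩ ball x δ := by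
    intro y hy
    obtain ⟨x, hx, hyx⟩ := mem_iUnion₂.mp (hcov hy)
    exact mem_iUnion₂.mpr ⟨x, htf.mem_toFinset.mpr hx, hy, hyx⟩
  have hpos := lam_nonneg (g := g) hφ hu n (Wu g u p)
  calc Lam g φ s n A ≤ Lam g φ s₀ n A := lam_scale hφ hs₀ hs₀s n A
    _ ≤ Lam g φ s₀ n (⋃ x ∈ htf.toFinset, A ∩ ball x δ) := lam_mono hφ hs₀ hsub
    _ ≤ ∑ x ∈ htf.toFinset, Lam g φ s₀ n (A ∩ ball x δ) := lam_cover hφ hs₀ n _ _
    _ ≤ ∑ x ∈ htf.toFinset, K * Real.exp V * (K₂ * C₁) * Lam g φ u n (Wu g u p) :=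
        Finset.sum_le_sum hpc
    _ = htf.toFinset.card * (K * Real.exp V * (K₂ * C₁) * Lam g φ u n (Wu g u p)) := by
        rw [Finset.sum_const, nsmul_eq_mul]
    _ ≤ (htf.toFinset.card + 1) * (K * Real.exp V * (K₂ * C₁) * Lam g φ u n (Wu g u p)) := by
        apply mul_le_mul_of_nonneg_right (by linarith)
        positivity
    _ = _ := by ring

/-- Reversal of the time. -/
theorem lam_rev {g : X ≃ₜ X} {φ : X → ℝ} {B s : ℝ} (hφ : ∀ x, |φ x| ≤ B)
    (hs : 0 < s) (n : ℕ) {L : Set X} (hL : ∀ x, g x ∈ L ↔ x ∈ L) :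
    Lam g.symm φ s n L ≤ Real.exp (2 * B) * Lam g φ s n L := by
  classical
  refine lam_le fun F hF hsep => ?_
  have hLs : ∀ x ∈ L, g.symm^[n] x ∈ L := fun x hx => by
    rw [← inv_iter hL n, iterR]
    exact hx
  have h1 := le_lam hφ hs (g := g) (n := n) (L := L) (F := F.image (g.symm^[n])) (by
    rw [Finset.coe_image]
    rintro _ ⟨y, hy, rfl⟩
    exact hLs y (hF hy)) (by
    intro a ha b hb hab
    obtain ⟨y, hy, rfl⟩ := Finset.mem_image.mp ha
    obtain ⟨z, hz, rfl⟩ := Finset.mem_image.mp hb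
    obtain ⟨k, hk, h2⟩ := hsep y hy z hz fun e => hab (by rw [e])
    refine ⟨n - k, by omega, ?_⟩
    rw [fw g (by omega), fw g (by omega)]
    have e : n - (n - k) = k := by omega
    rwa [e])
  have h2 : ps g.symm φ n F ≤ Real.exp (2 * B) * ps g φ n (F.image (g.symm^[n])) := by
    unfold ps
    rw [Finset.sum_image (fun a _ b _ hab => g.symm.injective.iterate n hab), Finset.mul_sum]
    refine Finset.sum_le_sum fun y _ => ?_
    rw [← Real.exp_add]
    apply Real.exp_le_exp.mpr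
    have := bsum_back g hφ n y
    linarith
  calc ps g.symm φ n F ≤ _ := h2
    _ ≤ _ := by gcongr

theorem exp_cmp {α β C : ℝ} (hC : 0 < C) (h : ∀ n : ℕ, Real.exp (n * α) ≤ C * Real.exp (n * β)) :
    α ≤ β := by
  by_contra hcon
  push Not at hcon
  obtain ⟨n, hn⟩ := exists_nat_gt (Real.log C / (α - β))
  have h1 := h n
  rw [div_lt_iff₀ (by linarith)] at hn
  have h2 : C * Real.exp (n * β) = Real.exp (Real.log C + n * β) := by
    rw [Real.exp_add, Real.exp_log hC]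
  rw [h2, Real.exp_le_exp] at h1
  nlinarith

/-- Without proper attractors all partition sums grow with the same exponential rate. -/
theorem trans_growth {E : Type*} [NormedAddCommGroup E] [NormedSpace ℝ E] (S : HypSys X E)
    {c : ℝ} (h : LP S.g c) (hA : MinAtt S.g univ) (hR : MinAtt S.g.symm univ) {φ ψ : X → ℝ}
    {e V V' B B' : ℝ}
    (hB : Bow S.g φ e V) (hB' : Bow S.g ψ e V') (hφ : ∀ x, |φ x| ≤ B) (hψ : ∀ x, |ψ x| ≤ B')
    (heq : ∀ (p : X) (T : ℕ), 1 ≤ T → S.g^[T] p = p →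
      birkhoffSum S.g φ T p = birkhoffSum S.g ψ T p) {p : X} (hp : S.g p = p) {u : ℝ} (hu : 0 < u)
    (huc : 16 * u ≤ c) (hue : u ≤ e) :
    ∃ α C : ℝ, 0 < C ∧ ∀ n : ℕ, (Real.exp (n * α) ≤ C * Lam S.g φ u n (Wu S.g u p) ∧
      Lam S.g φ u n (Wu S.g u p) ≤ C * Real.exp (n * α)) ∧
      Real.exp (n * α) ≤ C * Lam S.g.symm ψ u n (Wu S.g.symm u p) ∧
      Lam S.g.symm ψ u n (Wu S.g.symm u p) ≤ C * Real.exp (n * α) := by
  have he : 0 < e := hu.trans_le hue
  obtain ⟨α, C₁, hC₁, ha⟩ := pureA h hA hφ hB hu huc hue hp (mem_univ p)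
  obtain ⟨β, C₂, hC₂, hb⟩ := pureA (g := S.g.symm) h.symm hR hψ hB'.symm hu huc hue
    (fixed_symm hp) (mem_univ p)
  obtain ⟨D₁, hD₁, h1⟩ := lam_att h hA hφ he hB hu hu huc hue (mem_univ p)
  obtain ⟨D₂, hD₂, h2⟩ := lam_att (g := S.g.symm) h.symm hR hψ he hB'.symm hu hu huc hue
    (mem_univ p)
  obtain ⟨V₂, hV₂⟩ := per_bound S h hA he hB hB' hφ hψ fun p _ T hT hp => (heq p T hT hp).le
  obtain ⟨V₁, hV₁⟩ := per_bound S h hA he hB' hB hψ hφ fun p _ T hT hp => (heq p T hT hp).ge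
  have hinv : ∀ x, S.g x ∈ (univ : Set X) ↔ x ∈ (univ : Set X) := fun x => by simp
  have hinv' : ∀ x, S.g.symm x ∈ (univ : Set X) ↔ x ∈ (univ : Set X) := fun x => by simp
  have hαβ : α ≤ β := by
    refine exp_cmp (C := C₁ * (Real.exp V₂ * (Real.exp (2 * B') * (D₂ * C₂)))) (by positivity)
      fun n => ?_
    have h3 := lam_mono hφ hu (g := S.g) (n := n) (subset_univ (Wu S.g u p))
    have h4 := lam_cmp (g := S.g) (φ := φ) hψ hu (n := n) (L := univ) (fun b _ => hV₂ b trivial n)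
    have h5 := lam_rev (g := S.g.symm) hψ hu n hinv'
    have h6 := h2 n
    calc Real.exp (n * α) ≤ C₁ * Lam S.g φ u n (Wu S.g u p) := (ha n).1
      _ ≤ C₁ * Lam S.g φ u n univ := by gcongr
      _ ≤ C₁ * (Real.exp V₂ * Lam S.g ψ u n univ) := by gcongr
      _ ≤ C₁ * (Real.exp V₂ * (Real.exp (2 * B') * Lam S.g.symm ψ u n univ)) := by
        have h7 : Lam S.g ψ u n univ ≤ Real.exp (2 * B') * Lam S.g.symm ψ u n univ := h5
        gcongr
      _ ≤ C₁ * (Real.exp V₂ * (Real.exp (2 * B') *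
          (D₂ * Lam S.g.symm ψ u n (Wu S.g.symm u p)))) := by gcongr
      _ ≤ C₁ * (Real.exp V₂ * (Real.exp (2 * B') * (D₂ * (C₂ * Real.exp (n * β))))) := by
        have := (hb n).2
        gcongr
      _ = _ := by ring
  have hβα : β ≤ α := by
    refine exp_cmp (C := C₂ * (Real.exp (2 * B') * (Real.exp V₁ * (D₁ * C₁)))) (by positivity)
      fun n => ?_
    have h3 := lam_mono hψ hu (g := S.g.symm) (n := n) (subset_univ (Wu S.g.symm u p))
    have h4 := lam_cmp (g := S.g) (φ := ψ) (ψ := φ) hφ hu (n := n) (L := univ)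
      (fun b _ => hV₁ b trivial n)
    have h5 := lam_rev (g := S.g) hψ hu n hinv
    have h6 := h1 n
    calc Real.exp (n * β) ≤ C₂ * Lam S.g.symm ψ u n (Wu S.g.symm u p) := (hb n).1
      _ ≤ C₂ * Lam S.g.symm ψ u n univ := by gcongr
      _ ≤ C₂ * (Real.exp (2 * B') * Lam S.g ψ u n univ) := by gcongr
      _ ≤ C₂ * (Real.exp (2 * B') * (Real.exp V₁ * Lam S.g φ u n univ)) := by gcongr
      _ ≤ C₂ * (Real.exp (2 * B') * (Real.exp V₁ * (D₁ * Lam S.g φ u n (Wu S.g u p)))) := by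
        gcongr
      _ ≤ C₂ * (Real.exp (2 * B') * (Real.exp V₁ * (D₁ * (C₁ * Real.exp (n * α))))) := by
        have := (ha n).2
        gcongr
      _ = _ := by ring
  have hab : β = α := le_antisymm hβα hαβ
  rw [hab] at hb
  refine ⟨α, C₁ + C₂, by positivity, fun n => ⟨⟨?_, ?_⟩, ?_, ?_⟩⟩
  · exact (ha n).1.trans (mul_le_mul_of_nonneg_right (by linarith) (lam_nonneg hφ hu _ _))
  · exact (ha n).2.trans (mul_le_mul_of_nonneg_right (by linarith) (Real.exp_pos _).le)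
  · exact (hb n).1.trans (mul_le_mul_of_nonneg_right (by linarith) (lam_nonneg hψ hu _ _))
  · exact (hb n).2.trans (mul_le_mul_of_nonneg_right (by linarith) (Real.exp_pos _).le)

end one

section two

variable {X Y : Type*} [MetricSpace X] [CompactSpace X] [MetricSpace Y] [CompactSpace Y]

theorem up {h : X ≃ₜ Y} {f : X ≃ₜ X} {f' : Y ≃ₜ Y} (hf : ∀ x, h (f x) = f' (h x)) {N : ℕ}
    (hN : 1 ≤ N) {φ : X → ℝ} {B : ℝ} (hφ : ∀ x, |φ x| ≤ B) {s : ℝ} (hs : 0 < s) :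
    ∃ s' > 0, ∀ (n : ℕ) (L : Set X), Lam f φ s n L ≤ Real.exp (N * B) *
      Lam (iterHomeo f' N) (fun y => birkhoffSum f φ N (h.symm y)) s' (n / N) (h '' L) := by
  classical
  obtain ⟨s', hs', h1⟩ := all_times hf hN hs
  refine ⟨s', hs', fun n L => ?_⟩
  set Φ : Y → ℝ := fun y => birkhoffSum f φ N (h.symm y) with hΦ
  have hΦB : ∀ y, |Φ y| ≤ N * B := fun y => bsum_bound f hφ N _
  refine lam_le fun F hF hsep => ?_
  have h2 := le_lam hΦB hs' (g := iterHomeo f' N) (n := n / N) (L := h '' L) (F := F.image h) (by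
    rw [Finset.coe_image]
    exact image_mono hF) (by
    intro a ha b hb hab
    obtain ⟨y, hy, rfl⟩ := Finset.mem_image.mp ha
    obtain ⟨z, hz, rfl⟩ := Finset.mem_image.mp hb
    obtain ⟨k, hk, h2⟩ := hsep y hy z hz fun e => hab (by rw [e])
    refine ⟨k / N, Nat.div_le_div_right hk, ?_⟩
    by_contra hcon
    push Not at hcon
    have h3 := h1 (h y) (h z) k hcon
    rw [h.symm_apply_apply, h.symm_apply_apply] at h3
    linarith)
  have h3 : ps f φ n F ≤ Real.exp (N * B) * ps (iterHomeo f' N) Φ (n / N) (F.image h) := by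
    unfold ps
    rw [Finset.sum_image (fun a _ b _ hab => h.injective hab), Finset.mul_sum]
    refine Finset.sum_le_sum fun y _ => ?_
    rw [← Real.exp_add]
    apply Real.exp_le_exp.mpr
    rw [hΦ, bsum_pow hf, h.symm_apply_apply]
    have e1 : birkhoffSum f φ n y = birkhoffSum f φ (N * (n / N)) y +
        birkhoffSum f φ (n % N) (f^[N * (n / N)] y) := by
      rw [← birkhoffSum_add, Nat.div_add_mod]
    have h4 := (abs_le.mp (bsum_bound f hφ (n % N) (f^[N * (n / N)] y))).2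
    have hB0 : 0 ≤ B := (abs_nonneg _).trans (hφ y)
    have h5 : ((n % N : ℕ) : ℝ) * B ≤ N * B := by
      apply mul_le_mul_of_nonneg_right _ hB0
      exact_mod_cast (Nat.mod_lt _ (by omega)).le
    linarith
  calc ps f φ n F ≤ _ := h3
    _ ≤ _ := by gcongr

theorem low {h : X ≃ₜ Y} {f : X ≃ₜ X} {f' : Y ≃ₜ Y} (hf : ∀ x, h (f x) = f' (h x)) {N : ℕ}
    (hN : 1 ≤ N) {φ : X → ℝ} {B : ℝ} (hφ : ∀ x, |φ x| ≤ B) {s s' : ℝ} (hs : 0 < s)
    (hss : ∀ a b : X, dist a b ≤ s → dist (h a) (h b) ≤ s') (n : ℕ) (L : Set Y) :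
    Lam (iterHomeo f' N) (fun y => birkhoffSum f φ N (h.symm y)) s' (n / N) L ≤
      Real.exp (N * B) * Lam f φ s n (h.symm '' L) := by
  classical
  refine lam_le fun F hF hsep => ?_
  have h2 := le_lam hφ hs (g := f) (n := n) (L := h.symm '' L) (F := F.image h.symm) (by
    rw [Finset.coe_image]
    exact image_mono hF) (by
    intro a ha b hb hab
    obtain ⟨y, hy, rfl⟩ := Finset.mem_image.mp ha
    obtain ⟨z, hz, rfl⟩ := Finset.mem_image.mp hb
    obtain ⟨k, hk, h2⟩ := hsep y hy z hz fun e => hab (by rw [e])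
    refine ⟨N * k, (Nat.mul_le_mul_left _ hk).trans (Nat.mul_div_le n N), ?_⟩
    by_contra hcon
    push Not at hcon
    have h3 := hss _ _ hcon
    rw [conj_iter hf, conj_iter hf, h.apply_symm_apply, h.apply_symm_apply, ← ith_iter,
      ← ith_iter] at h3
    linarith)
  have h3 : ps (iterHomeo f' N) (fun y => birkhoffSum f φ N (h.symm y)) (n / N) F ≤
      Real.exp (N * B) * ps f φ n (F.image h.symm) := by
    unfold ps
    rw [Finset.sum_image (fun a _ b _ hab => h.symm.injective hab), Finset.mul_sum]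
    refine Finset.sum_le_sum fun y _ => ?_
    rw [← Real.exp_add]
    apply Real.exp_le_exp.mpr
    rw [bsum_pow hf]
    have e1 : birkhoffSum f φ n (h.symm y) = birkhoffSum f φ (N * (n / N)) (h.symm y) +
        birkhoffSum f φ (n % N) (f^[N * (n / N)] (h.symm y)) := by
      rw [← birkhoffSum_add, Nat.div_add_mod]
    have h4 := (abs_le.mp (bsum_bound f hφ (n % N) (f^[N * (n / N)] (h.symm y)))).1
    have hB0 : 0 ≤ B := (abs_nonneg _).trans (hφ (h.symm y))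
    have h5 : ((n % N : ℕ) : ℝ) * B ≤ N * B := by
      apply mul_le_mul_of_nonneg_right _ hB0
      exact_mod_cast (Nat.mod_lt _ (by omega)).le
    linarith
  calc ps (iterHomeo f' N) (fun y => birkhoffSum f φ N (h.symm y)) (n / N) F ≤ _ := h3
    _ ≤ _ := by gcongr

theorem wu_up {h : X ≃ₜ Y} {f : X ≃ₜ X} {f' : Y ≃ₜ Y} (hf : ∀ x, h (f x) = f' (h x)) (N : ℕ)
    {r c' : ℝ} (hr : ∀ a b : X, dist a b ≤ r → dist (h a) (h b) ≤ c') (x : X) :
    h '' Wu f r x ⊆ Wu (iterHomeo f' N) c' (h x) := by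
  rintro _ ⟨y, hy, rfl⟩ n
  have h2 := hr _ _ (hy (N * n))
  rw [conj_iter (conj_symm hf), conj_iter (conj_symm hf)] at h2
  rw [ith_symm_iter, ith_symm_iter]
  exact h2

theorem wu_low {h : X ≃ₜ Y} {f : X ≃ₜ X} {f' : Y ≃ₜ Y} (hf : ∀ x, h (f x) = f' (h x)) {N : ℕ}
    (hN : 1 ≤ N) {r : ℝ} (hr : 0 < r) : ∃ r' > 0, ∀ x : X,
      h.symm '' Wu (iterHomeo f' N) r' (h x) ⊆ Wu f r x := by
  obtain ⟨r', hr', h1⟩ := all_times (conj_symm hf) hN hr
  refine ⟨r', hr', fun x => ?_⟩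
  rintro _ ⟨y, hy, rfl⟩ n
  have h2 := h1 (h x) y n (by
    rw [← ith_symm]
    exact hy (n / N))
  rwa [h.symm_apply_apply] at h2

end two

end Pool.Agent.V7H52.AG
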