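import Pool.Agent.V7H52.AG.A5

set_option autoImplicit false
set_option linter.unusedSectionVars false

open Filter Topology Set Metric MeasureTheory
open scoped Manifold ContDiff

namespace Pool.Agent.V7H52.AG

open Pool.Agent.H789R2.AN Pool.Agent.Y330.G Pool.Agent.N520.T Pool.Agent.H721R2
  Pool.Agent.Y321.PJ

section arith

theorem floor_bd {N : ℕ} (hN : 1 ≤ N) (n : ℕ) :
    0 ≤ (n : ℝ) / N - ((n / N : ℕ) : ℝ) ∧ (n : ℝ) / N - ((n / N : ℕ) : ℝ) ≤ 1 := by
  have hN0 : (0 : ℝ) < N := by exact_mod_cast hN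
  have h1 : (n : ℝ) = N * ((n / N : ℕ) : ℝ) + ((n % N : ℕ) : ℝ) := by
    exact_mod_cast (Nat.div_add_mod n N).symm
  have h2 : (n : ℝ) / N - ((n / N : ℕ) : ℝ) = ((n % N : ℕ) : ℝ) / N := by
    field_simp
    linarith
  rw [h2]
  refine ⟨by positivity, ?_⟩
  rw [div_le_one hN0]
  exact_mod_cast (Nat.mod_lt _ (by omega)).le

theorem exp_floor {N : ℕ} (hN : 1 ≤ N) (α : ℝ) (n : ℕ) :
    Real.exp (n * (α / N)) ≤ Real.exp |α| * Real.exp ((n / N : ℕ) * α) ∧
      Real.exp ((n / N : ℕ) * α) ≤ Real.exp |α| * Real.exp (n * (α / N)) := by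
  obtain ⟨h1, h2⟩ := floor_bd hN n
  have e1 : (n : ℝ) * (α / N) - (n / N : ℕ) * α = ((n : ℝ) / N - (n / N : ℕ)) * α := by ring
  have h3 : |(n : ℝ) * (α / N) - (n / N : ℕ) * α| ≤ |α| := by
    rw [e1, abs_mul, abs_of_nonneg h1]
    calc _ ≤ 1 * |α| := by gcongr
      _ = |α| := one_mul _
  rw [abs_le] at h3
  rw [← Real.exp_add, ← Real.exp_add]
  constructor <;> apply Real.exp_le_exp.mpr <;> linarith

theorem Z_floor {N : ℕ} (hN : 1 ≤ N) (α β : ℝ) (n : ℕ) :
    Z (α / N) (β / N) n ≤ N * Real.exp (|α| + |β|) * Z α β (n / N) := by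
  unfold Z
  have hmaps : ∀ j ∈ Finset.range (n + 1), j / N ∈ Finset.range (n / N + 1) := by
    intro j hj
    rw [Finset.mem_range] at hj ⊢
    exact Nat.lt_succ_of_le (Nat.div_le_div_right (by omega))
  rw [← Finset.sum_fiberwise_of_maps_to hmaps, Finset.mul_sum]
  refine Finset.sum_le_sum fun i _ => ?_
  have hcard : ((Finset.range (n + 1)).filter (fun j => j / N = i)).card ≤ N := by
    have hsub : (Finset.range (n + 1)).filter (fun j => j / N = i) ⊆
        Finset.Ico (N * i) (N * i + N) := by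
      intro j hj
      have h1 := (Finset.mem_filter.mp hj).2
      rw [Finset.mem_Ico]
      have h2 := Nat.div_add_mod j N
      have h3 := Nat.mod_lt j (show 0 < N by omega)
      rw [h1] at h2
      omega
    have := Finset.card_le_card hsub
    rw [Nat.card_Ico] at this
    omega
  obtain ⟨n1, n2⟩ := floor_bd hN n
  calc ∑ j ∈ (Finset.range (n + 1)).filter (fun j => j / N = i),
        Real.exp (j * (α / N) + ((n : ℝ) - j) * (β / N))
      ≤ ∑ j ∈ (Finset.range (n + 1)).filter (fun j => j / N = i),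
        Real.exp (|α| + |β|) * Real.exp (i * α + (((n / N : ℕ) : ℝ) - i) * β) := by
        refine Finset.sum_le_sum fun j hj => ?_
        have h1 := (Finset.mem_filter.mp hj).2
        obtain ⟨j1, j2⟩ := floor_bd hN j
        rw [h1] at j1 j2
        rw [← Real.exp_add]
        apply Real.exp_le_exp.mpr
        have a1 : ((j : ℝ) / N - i) * α ≤ |α| := by
          calc ((j : ℝ) / N - i) * α ≤ |((j : ℝ) / N - i) * α| := le_abs_self _
            _ = ((j : ℝ) / N - i) * |α| := by rw [abs_mul, abs_of_nonneg j1]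
            _ ≤ 1 * |α| := by gcongr
            _ = |α| := one_mul _
        have a2 : (((n : ℝ) / N - (n / N : ℕ)) - ((j : ℝ) / N - i)) * β ≤ |β| := by
          calc _ ≤ |(((n : ℝ) / N - (n / N : ℕ)) - ((j : ℝ) / N - i)) * β| := le_abs_self _
            _ = |((n : ℝ) / N - (n / N : ℕ)) - ((j : ℝ) / N - i)| * |β| := abs_mul _ _
            _ ≤ 1 * |β| := by
              apply mul_le_mul_of_nonneg_right _ (abs_nonneg _)
              rw [abs_le]
              constructor <;> linarith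
            _ = |β| := one_mul _
        have e : (j : ℝ) * (α / N) + ((n : ℝ) - j) * (β / N) =
            (i * α + (((n / N : ℕ) : ℝ) - i) * β) + ((j : ℝ) / N - i) * α +
              (((n : ℝ) / N - (n / N : ℕ)) - ((j : ℝ) / N - i)) * β := by ring
        linarith
    _ = ((Finset.range (n + 1)).filter (fun j => j / N = i)).card *
        (Real.exp (|α| + |β|) * Real.exp (i * α + (((n / N : ℕ) : ℝ) - i) * β)) := by
        rw [Finset.sum_const, nsmul_eq_mul]
    _ ≤ N * (Real.exp (|α| + |β|) * Real.exp (i * α + (((n / N : ℕ) : ℝ) - i) * β)) := by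
        apply mul_le_mul_of_nonneg_right _ (by positivity)
        exact_mod_cast hcard
    _ = _ := by ring

end arith

section two

variable {X Y : Type*} [MetricSpace X] [CompactSpace X] [MetricSpace Y] [CompactSpace Y]

/-- Comparison of the growth for `f` and for the power at a fixed point. -/
theorem pt_cmp {h : X ≃ₜ Y} {f : X ≃ₜ X} {f' : Y ≃ₜ Y} (hf : ∀ x, h (f x) = f' (h x)) {N : ℕ}
    (hN : 1 ≤ N) {c : ℝ} (hLP : LP (iterHomeo f' N) c) {r₁ : ℝ}
    (hr₁ : ∀ a b : X, dist a b ≤ r₁ → dist (h a) (h b) ≤ c / 4) {φ : X → ℝ} {B : ℝ}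
    (hφ : ∀ x, |φ x| ≤ B) {e V : ℝ} (he : 0 < e)
    (hB : Bow (iterHomeo f' N) (fun y => birkhoffSum f φ N (h.symm y)) e V) {u : ℝ} (hu : 0 < u)
    (huc : 2 * u ≤ c) {r s : ℝ} (hr : 0 < r) (hrr : r ≤ r₁) (hs : 0 < s) (hsr : s ≤ r₁) :
    ∃ C > 0, ∀ x : X, iterHomeo f' N (h x) = h x → ∀ n : ℕ,
      Lam f φ s n (Wu f r x) ≤ C * Lam (iterHomeo f' N) (fun y => birkhoffSum f φ N (h.symm y)) u
        (n / N) (Wu (iterHomeo f' N) u (h x)) ∧
      Lam (iterHomeo f' N) (fun y => birkhoffSum f φ N (h.symm y)) u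
        (n / N) (Wu (iterHomeo f' N) u (h x)) ≤ C * Lam f φ s n (Wu f r x) := by
  have hc := hLP.c_pos
  set g := iterHomeo f' N with hg
  set Φ : Y → ℝ := fun y => birkhoffSum f φ N (h.symm y) with hΦ
  have hΦB : ∀ y, |Φ y| ≤ N * B := fun y => bsum_bound f hφ N _
  obtain ⟨s', hs', h1⟩ := up hf hN hφ hs
  obtain ⟨r', hr', h2⟩ := wu_low hf hN hr
  obtain ⟨K₁, hK₁, h3⟩ := lam_fix hLP hΦB he hB hu huc hs' (r' := c / 4) (by linarith) hu
  obtain ⟨K₂, hK₂, h4⟩ := lam_fix hLP hΦB he hB (s := c / 4) (by linarith) (by linarith) hu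
    (r' := u) huc hr'
  refine ⟨Real.exp (N * B) * K₁ + Real.exp (N * B) * K₂, by positivity, fun x hx n => ?_⟩
  have p1 := lam_nonneg (g := f) hφ hs n (Wu f r x)
  have p2 := lam_nonneg (g := g) hΦB hu (n / N) (Wu g u (h x))
  constructor
  · have h5 := lam_mono (g := g) hΦB hs' (n := n / N) (wu_up hf N
      (fun a b hab => hr₁ a b (hab.trans hrr)) x)
    calc Lam f φ s n (Wu f r x) ≤ Real.exp (N * B) * Lam g Φ s' (n / N) (h '' Wu f r x) := h1 _ _
      _ ≤ Real.exp (N * B) * Lam g Φ s' (n / N) (Wu g (c / 4) (h x)) := by gcongr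
      _ ≤ Real.exp (N * B) * (K₁ * Lam g Φ u (n / N) (Wu g u (h x))) := by
        have := h3 _ hx (n / N)
        gcongr
      _ = Real.exp (N * B) * K₁ * Lam g Φ u (n / N) (Wu g u (h x)) := by ring
      _ ≤ _ := by
        apply mul_le_mul_of_nonneg_right _ p2
        have : 0 < Real.exp (N * B) * K₂ := by positivity
        linarith
  · have h5 := low hf hN hφ hs (s' := c / 4) (fun a b hab => hr₁ a b (hab.trans hsr)) n
      (Wu g r' (h x))
    have h6 := lam_mono (g := f) hφ hs (n := n) (h2 x)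
    calc Lam g Φ u (n / N) (Wu g u (h x)) ≤ K₂ * Lam g Φ (c / 4) (n / N) (Wu g r' (h x)) :=
          h4 _ hx _
      _ ≤ K₂ * (Real.exp (N * B) * Lam f φ s n (h.symm '' Wu g r' (h x))) := by gcongr
      _ ≤ K₂ * (Real.exp (N * B) * Lam f φ s n (Wu f r x)) := by gcongr
      _ = Real.exp (N * B) * K₂ * Lam f φ s n (Wu f r x) := by ring
      _ ≤ _ := by
        apply mul_le_mul_of_nonneg_right _ p1
        have : 0 < Real.exp (N * B) * K₁ := by positivity
        linarith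

/-- Uniform comparison without proper attractors. -/
theorem unif_cmp {h : X ≃ₜ Y} {f : X ≃ₜ X} {f' : Y ≃ₜ Y} (hf : ∀ x, h (f x) = f' (h x)) {N : ℕ}
    (hN : 1 ≤ N) {c : ℝ} (hLP : LP (iterHomeo f' N) c) (hmin : MinAtt (iterHomeo f' N) univ)
    {r₁ : ℝ} (hr₁ : ∀ a b : X, dist a b ≤ r₁ → dist (h a) (h b) ≤ c / 4) {φ : X → ℝ} {B : ℝ}
    (hφ : ∀ x, |φ x| ≤ B) {e V : ℝ} (he : 0 < e)
    (hB : Bow (iterHomeo f' N) (fun y => birkhoffSum f φ N (h.symm y)) e V) {u : ℝ} (hu : 0 < u)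
    (huc : 2 * u ≤ c) (hue : u ≤ e) {r s : ℝ} (hr : 0 < r) (hrr : r ≤ r₁) (hs : 0 < s)
    (hsr : s ≤ r₁) :
    ∃ C > 0, ∀ (x : X) (y : Y) (n : ℕ),
      Lam f φ s n (Wu f r x) ≤ C * Lam (iterHomeo f' N) (fun y => birkhoffSum f φ N (h.symm y)) u
        (n / N) (Wu (iterHomeo f' N) u y) ∧
      Lam (iterHomeo f' N) (fun y => birkhoffSum f φ N (h.symm y)) u
        (n / N) (Wu (iterHomeo f' N) u y) ≤ C * Lam f φ s n (Wu f r x) := by
  have hc := hLP.c_pos
  set g := iterHomeo f' N with hg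
  set Φ : Y → ℝ := fun y => birkhoffSum f φ N (h.symm y) with hΦ
  have hΦB : ∀ y, |Φ y| ≤ N * B := fun y => bsum_bound f hφ N _
  obtain ⟨s', hs', h1⟩ := up hf hN hφ hs
  obtain ⟨r', hr', h2⟩ := wu_low hf hN hr
  obtain ⟨ρ, hρ, hρr, hρc⟩ : ∃ ρ > 0, ρ ≤ r' ∧ 2 * ρ ≤ c :=
    ⟨min r' (c / 2), lt_min hr' (half_pos hc), min_le_left _ _, by
      have := min_le_right r' (c / 2)
      linarith⟩
  obtain ⟨K₁, hK₁, h3⟩ := lam_chg hLP hΦB he hB hu hs' huc 0
  obtain ⟨K₂, hK₂, h4⟩ := lam_chg hLP hΦB he hB (s := c / 4) (by linarith) hu (by linarith) 0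
  obtain ⟨C₁, hC₁, h5⟩ := growthA hLP hmin hΦB he hB hu hue huc (r' := c / 4) (by linarith) hu
  obtain ⟨C₂, hC₂, h6⟩ := growthA hLP hmin hΦB he hB hu hue huc (r' := u) (by linarith) hρ
  refine ⟨Real.exp (N * B) * (K₁ * C₁) + Real.exp (N * B) * (C₂ * K₂), by positivity,
    fun x y n => ?_⟩
  have p1 := lam_nonneg (g := f) hφ hs n (Wu f r x)
  have p2 := lam_nonneg (g := g) hΦB hu (n / N) (Wu g u y)
  constructor
  · have h7 := lam_mono (g := g) hΦB hs' (n := n / N) (wu_up hf N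
      (fun a b hab => hr₁ a b (hab.trans hrr)) x)
    have h8 := h3 (n / N) (Wu g (c / 4) (h x)) (fun y hy y' hy' =>
      (sr_tr (SR.symm' hy) hy').mono (by linarith))
    rw [Nat.add_zero] at h8
    calc Lam f φ s n (Wu f r x) ≤ Real.exp (N * B) * Lam g Φ s' (n / N) (h '' Wu f r x) := h1 _ _
      _ ≤ Real.exp (N * B) * Lam g Φ s' (n / N) (Wu g (c / 4) (h x)) := by gcongr
      _ ≤ Real.exp (N * B) * (K₁ * Lam g Φ u (n / N) (Wu g (c / 4) (h x))) := by gcongr
      _ ≤ Real.exp (N * B) * (K₁ * (C₁ * Lam g Φ u (n / N) (Wu g u y))) := by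
        have := h5 (n / N) (h x) trivial y trivial
        gcongr
      _ = Real.exp (N * B) * (K₁ * C₁) * Lam g Φ u (n / N) (Wu g u y) := by ring
      _ ≤ _ := by
        apply mul_le_mul_of_nonneg_right _ p2
        have : 0 < Real.exp (N * B) * (C₂ * K₂) := by positivity
        linarith
  · have h7 := low hf hN hφ hs (s' := c / 4) (fun a b hab => hr₁ a b (hab.trans hsr)) n
      (Wu g ρ (h x))
    have hsub : h.symm '' Wu g ρ (h x) ⊆ Wu f r x :=
      (image_mono fun a ha => SR.mono ha hρr).trans (h2 x)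
    have h8 := lam_mono (g := f) hφ hs (n := n) hsub
    have h9 := h4 (n / N) (Wu g ρ (h x)) (fun y hy y' hy' =>
      (sr_tr (SR.symm' hy) hy').mono (by linarith))
    rw [Nat.add_zero] at h9
    calc Lam g Φ u (n / N) (Wu g u y) ≤ C₂ * Lam g Φ u (n / N) (Wu g ρ (h x)) :=
          h6 _ y trivial _ trivial
      _ ≤ C₂ * (K₂ * Lam g Φ (c / 4) (n / N) (Wu g ρ (h x))) := by gcongr
      _ ≤ C₂ * (K₂ * (Real.exp (N * B) * Lam f φ s n (h.symm '' Wu g ρ (h x)))) := by gcongr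
      _ ≤ C₂ * (K₂ * (Real.exp (N * B) * Lam f φ s n (Wu f r x))) := by gcongr
      _ = Real.exp (N * B) * (C₂ * K₂) * Lam f φ s n (Wu f r x) := by ring
      _ ≤ _ := by
        apply mul_le_mul_of_nonneg_right _ p1
        have : 0 < Real.exp (N * B) * (K₁ * C₁) := by positivity
        linarith

end two

universe w

variable {E : Type*} [NormedAddCommGroup E] [NormedSpace ℝ E] [FiniteDimensional ℝ E]

/-- A power of `f` with local product structure and fixed points in the minimal attractors and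
repellers. -/
theorem model {M : Type w} [MetricSpace M] [CompactSpace M] [ConnectedSpace M]
    [ChartedSpace E M] [IsManifold 𝓘(ℝ, E) ∞ M] (f : Diffeomorph 𝓘(ℝ, E) 𝓘(ℝ, E) M M 1)
    (Es Eu : ∀ x : M, Submodule ℝ (TangentSpace 𝓘(ℝ, E) x)) (hA : IsAnosov f Es Eu) :
    ∃ (Y : Type w) (_ : MetricSpace Y) (_ : CompactSpace Y) (_ : ConnectedSpace Y) (m : ℕ)
      (h : M ≃ₜ Y) (f' : Y ≃ₜ Y) (N : ℕ) (S : HypSys Y (EuclideanSpace ℝ (Fin m))) (c : ℝ),
      (∀ x, h (f.toHomeomorph x) = f' (h x)) ∧ 1 ≤ N ∧ S.g = iterHomeo f' N ∧ LP S.g c ∧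
      (∀ A, MinAtt S.g A → ∃ p ∈ A, S.g p = p) ∧
      (∀ R, MinAtt S.g.symm R → ∃ p ∈ R, S.g.symm p = p) ∧
      (TopTransitive f ↔ ∀ A, IsAtt S.g A → A = univ) := by
  obtain ⟨Y, iY, cY, m, h, f', hf, hsys⟩ := exists_model2 f Es Eu hA
  have hY : ConnectedSpace Y := h.surjective.connectedSpace h.continuous
  set F : M ≃ₜ M := f.toHomeomorph with hF
  have hf' : ∀ x, h (F x) = f' (h x) := hf
  obtain ⟨n₁, S₁, hn₁, hS₁⟩ := hsys 1 le_rfl
  rw [one_mul] at hS₁
  obtain ⟨c₁, hc₁⟩ := exists_LP S₁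
  obtain ⟨T, hT1, hTA, hTR⟩ := common S₁ hc₁
  obtain ⟨n₂, S₂, hn₂, hS₂⟩ := hsys (n₁ * T) (Nat.mul_pos hn₁ hT1)
  obtain ⟨c₂, hc₂⟩ := exists_LP S₂
  set N := n₁ * T * n₂ with hN
  have hN1 : 1 ≤ N := Nat.mul_pos (Nat.mul_pos hn₁ hT1) hn₂
  have hk : 1 ≤ T * n₂ := Nat.mul_pos hT1 hn₂
  have hg : S₂.g = iterHomeo S₁.g (T * n₂) := by
    rw [hS₁, hS₂, iter_iter_homeo, hN, mul_assoc]
  have hperA : ∀ A, MinAtt S₁.g A → ∃ p ∈ A, S₁.g^[T * n₂] p = p := fun A hA => by
    obtain ⟨p, hp, hpT⟩ := hTA A hA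
    exact ⟨p, hp, fixed_of_dvd hpT (Dvd.intro _ rfl)⟩
  have hperR : ∀ R, MinAtt S₁.g.symm R → ∃ p ∈ R, S₁.g.symm^[T * n₂] p = p := fun R hR => by
    obtain ⟨p, hp, hpT⟩ := hTR R hR
    exact ⟨p, hp, fixed_of_dvd hpT (Dvd.intro _ rfl)⟩
  have hfixA : ∀ A, MinAtt S₂.g A → ∃ p ∈ A, S₂.g p = p := by
    intro A hA
    have := fix_att hk hperA (A := A) (by rw [← hg]; exact hA.1)
    rw [← hg] at this
    exact this
  have hfixR : ∀ R, MinAtt S₂.g.symm R → ∃ p ∈ R, S₂.g.symm p = p := by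
    intro R hR
    have := fix_att (g := S₁.g.symm) hk hperR (A := R) (by rw [← ith_symm, ← hg]; exact hR.1)
    rw [← ith_symm, ← hg] at this
    exact this
  have htr : TopTransitive f ↔ ∀ S, IsAtt S₂.g S → S = univ := by
    have h1 : TopTransitive (f' : Y → Y) ↔ ∀ S, IsAtt S₂.g S → S = univ := by
      have h2 := hc₂
      rw [hS₂] at h2
      have h3 := trans_iff hN1 h2
      rwa [← hS₂] at h3
    rw [← h1]
    constructor
    · intro ht U V hU hUn hV hVn
      obtain ⟨n, _, ⟨x, hx, rfl⟩, hy⟩ := ht (h ⁻¹' U) (h ⁻¹' V) (hU.preimage h.continuous)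
        (hUn.preimage h.surjective) (hV.preimage h.continuous) (hVn.preimage h.surjective)
      exact ⟨n, h (f^[n] x), ⟨h x, hx, (conj_iter hf' n x).symm⟩, hy⟩
    · intro ht U V hU hUn hV hVn
      obtain ⟨n, _, ⟨x, hx, rfl⟩, hy⟩ := ht (h.symm ⁻¹' U) (h.symm ⁻¹' V)
        (hU.preimage h.symm.continuous) (hUn.preimage h.symm.surjective)
        (hV.preimage h.symm.continuous) (hVn.preimage h.symm.surjective)
      refine ⟨n, h.symm (f'^[n] x), ⟨h.symm x, hx, ?_⟩, hy⟩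
      apply h.injective
      rw [h.apply_symm_apply]
      have := conj_iter hf' n (h.symm x)
      rw [h.apply_symm_apply] at this
      exact this
  exact ⟨Y, iY, cY, hY, m, h, f', N, S₂, c₂, hf', hN1, hS₂, hc₂, hfixA, hfixR, htr⟩

end Pool.Agent.V7H52.AG
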