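import Pool.Agent.V7H52.AG.A6

set_option autoImplicit false
set_option linter.unusedSectionVars false

open Filter Topology Set Metric MeasureTheory
open scoped Manifold ContDiff

namespace Pool.Agent.V7H52.AG

open Pool.Agent.H789R2.AN Pool.Agent.Y330.G Pool.Agent.N520.T Pool.Agent.H721R2
  Pool.Agent.Y321.PJ

section pot

variable {X Y : Type*} [MetricSpace X] [CompactSpace X] [MetricSpace Y] [CompactSpace Y]

theorem pot_bdd {f : X ≃ₜ X} {φ : X → ℝ} (hφ : Pot f φ) : ∃ B, ∀ x, |φ x| ≤ B := by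
  obtain ⟨B, hB⟩ := (isCompact_univ (X := X)).exists_bound_of_continuousOn hφ.1.continuousOn
  exact ⟨B, fun x => hB x trivial⟩

/-- The two potentials of the power. -/
theorem two_pots {h : X ≃ₜ Y} {f : X ≃ₜ X} {f' : Y ≃ₜ Y} (hf : ∀ x, h (f x) = f' (h x)) {N : ℕ}
    (hN : 1 ≤ N) {φ ψ : X → ℝ} (hφ : Pot f φ) (hψ : Pot f ψ)
    (heq : ∀ (x : X) (T : ℕ), 1 ≤ T → f^[T] x = x → birkhoffSum f φ T x = birkhoffSum f ψ T x) :
    ∃ (B e V V' : ℝ), 0 < e ∧ (∀ x, |φ x| ≤ B) ∧ (∀ x, |ψ x| ≤ B) ∧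
      Bow (iterHomeo f' N) (fun y => birkhoffSum f φ N (h.symm y)) e V ∧
      Bow (iterHomeo f' N) (fun y => birkhoffSum f.symm ψ N (h.symm y)) e V' ∧
      (∀ y, |birkhoffSum f φ N (h.symm y)| ≤ N * B) ∧
      (∀ y, |birkhoffSum f.symm ψ N (h.symm y)| ≤ N * B) ∧
      ∀ (p : Y) (T : ℕ), 1 ≤ T → (iterHomeo f' N)^[T] p = p →
        birkhoffSum (iterHomeo f' N) (fun y => birkhoffSum f φ N (h.symm y)) T p =
          birkhoffSum (iterHomeo f' N) (fun y => birkhoffSum f.symm ψ N (h.symm y)) T p := by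
  obtain ⟨B₁, hB₁⟩ := pot_bdd hφ
  obtain ⟨B₂, hB₂⟩ := pot_bdd hψ
  have hφB : ∀ x, |φ x| ≤ max B₁ B₂ := fun x => (hB₁ x).trans (le_max_left _ _)
  have hψB : ∀ x, |ψ x| ≤ max B₁ B₂ := fun x => (hB₂ x).trans (le_max_right _ _)
  obtain ⟨-, e, he, V, hBφ⟩ := hφ
  obtain ⟨-, e', he', V', hBψ⟩ := hψ
  obtain ⟨e₁, he₁, hb₁⟩ := bow_transfer hf hN he hBφ
  obtain ⟨e₂, he₂, hb₂⟩ := bow_transfer (f := f.symm) (f' := f'.symm) (conj_symm hf) hN he'
    hBψ.symm
  rw [← ith_symm] at hb₂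
  have hb₂' : Bow (iterHomeo f' N) (fun y => birkhoffSum f.symm ψ N (h.symm y)) e₂ V' := hb₂.symm
  refine ⟨max B₁ B₂, min e₁ e₂, V, V', lt_min he₁ he₂, hφB, hψB, ?_, ?_,
    fun y => bsum_bound f hφB N _, fun y => bsum_bound f.symm hψB N _, ?_⟩
  · intro n x y hxy
    exact hb₁ n x y fun k hk => (hxy k hk).trans (min_le_left _ _)
  · intro n x y hxy
    exact hb₂' n x y fun k hk => (hxy k hk).trans (min_le_right _ _)
  · intro p T' hT' hp
    have hpF : f^[N * T'] (h.symm p) = h.symm p := by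
      rw [← back_iter hf N T' p, hp]
    have h2 : birkhoffSum (iterHomeo f' N) (fun y => birkhoffSum f.symm ψ N (h.symm y)) T' p =
        birkhoffSum f ψ (N * T') (h.symm p) := by
      rw [← bsum_per _ hp, ← bsum_per ψ hpF, ith_symm]
      exact bsum_pow (f := f.symm) (f' := f'.symm) (conj_symm hf) N ψ T' p
    rw [bsum_pow hf, h2]
    exact heq _ _ (Nat.mul_pos hN hT') hpF

end pot

universe w

variable {E : Type*} [NormedAddCommGroup E] [NormedSpace ℝ E] [FiniteDimensional ℝ E]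

/-- The main theorem on manifolds. -/
theorem main {M : Type w} [MetricSpace M] [CompactSpace M] [ConnectedSpace M]
    [ChartedSpace E M] [IsManifold 𝓘(ℝ, E) ∞ M] (f : Diffeomorph 𝓘(ℝ, E) 𝓘(ℝ, E) M M 1)
    (Es Eu : ∀ x : M, Submodule ℝ (TangentSpace 𝓘(ℝ, E) x)) (hA : IsAnosov f Es Eu) :
    ∃ ε₀ > 0, (TopTransitive f → ∀ φ ψ : M → ℝ,
      Pot f.toHomeomorph φ → Pot f.toHomeomorph ψ →
      (∀ (x : M) (T : ℕ), 1 ≤ T → f^[T] x = x → birkhoffSum f φ T x = birkhoffSum f ψ T x) →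
      ∃ P : ℝ, ∀ r s : ℝ, 0 < r → r ≤ ε₀ → 0 < s → s ≤ ε₀ → ∃ C > 0, ∀ (n : ℕ) (x : M),
        (Real.exp (n * P) ≤ C * Lam f.toHomeomorph φ s n (Wu f.toHomeomorph r x) ∧
          Lam f.toHomeomorph φ s n (Wu f.toHomeomorph r x) ≤ C * Real.exp (n * P)) ∧
        Real.exp (n * P) ≤ C * Lam f.toHomeomorph.symm ψ s n (Wu f.toHomeomorph.symm r x) ∧
        Lam f.toHomeomorph.symm ψ s n (Wu f.toHomeomorph.symm r x) ≤ C * Real.exp (n * P)) ∧
    (¬ TopTransitive f → ∃ p q : M, (∃ T : ℕ, 1 ≤ T ∧ f^[T] p = p) ∧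
      (∃ T : ℕ, 1 ≤ T ∧ f^[T] q = q) ∧
      (∃ χ : M → ℝ, (∀ t : ℝ, Pot f.toHomeomorph (fun x => t * χ x)) ∧
        (∀ r ≤ ε₀, ∀ y ∈ Wu f.toHomeomorph r p, ∀ k : ℕ, χ (f^[k] y) = 0) ∧
        ∀ r ≤ ε₀, ∀ y ∈ Wu f.toHomeomorph.symm r q, ∀ k : ℕ,
          χ (f.toHomeomorph.symm^[k] y) = 1) ∧
      ∀ φ ψ : M → ℝ, Pot f.toHomeomorph φ → Pot f.toHomeomorph ψ →
      (∀ (x : M) (T : ℕ), 1 ≤ T → f^[T] x = x → birkhoffSum f φ T x = birkhoffSum f ψ T x) →
      ∃ α β : ℝ, ∀ r s : ℝ, 0 < r → r ≤ ε₀ → 0 < s → s ≤ ε₀ → ∃ C > 0, ∀ n : ℕ,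
        (Real.exp (n * α) ≤ C * Lam f.toHomeomorph φ s n (Wu f.toHomeomorph r p) ∧
          Lam f.toHomeomorph φ s n (Wu f.toHomeomorph r p) ≤ C * Real.exp (n * α)) ∧
        (Real.exp (n * β) ≤ C * Lam f.toHomeomorph.symm ψ s n (Wu f.toHomeomorph.symm r q) ∧
          Lam f.toHomeomorph.symm ψ s n (Wu f.toHomeomorph.symm r q) ≤
            C * Real.exp (n * β)) ∧
        Z α β n ≤ C * Lam f.toHomeomorph φ s n (Wu f.toHomeomorph r q) ∧
        Z α β n ≤ C * Lam f.toHomeomorph.symm ψ s n (Wu f.toHomeomorph.symm r p)) := by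
  obtain ⟨Y, iY, cY, kY, m, h, f', N, S, c, hf, hN, hS, hLP, hfixA, hfixR, htr⟩ := model f Es Eu hA
  set F : M ≃ₜ M := f.toHomeomorph with hF
  have hc := hLP.c_pos
  obtain ⟨ε₀, hε₀, hr₁⟩ := one_uc h (show 0 < c / 4 by linarith)
  have hLP' : LP (iterHomeo f' N) c := by rw [← hS]; exact hLP
  have hSs : S.g.symm = iterHomeo f'.symm N := by rw [hS, ith_symm]
  have hLPs : LP (iterHomeo f'.symm N) c := by rw [← hSs]; exact hLP.symm
  have hN0 : (0 : ℝ) < N := by exact_mod_cast hN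
  have hscale : ∀ e : ℝ, 0 < e → ∃ u > 0, 256 * u ≤ c ∧ 16 * u ≤ e := fun e he =>
    ⟨min c e / 256, by positivity, by
      have := min_le_left c e
      linarith, by
      have := min_le_right c e
      have : 0 < min c e := lt_min hc he
      linarith⟩
  refine ⟨ε₀, hε₀, ?_, ?_⟩
  · -- the transitive case
    intro ht φ ψ hφ hψ heq
    have hatt := htr.mp ht
    have hrep := no_rep hLP hatt
    have hAu : MinAtt S.g univ :=
      ⟨⟨isClosed_univ, univ_nonempty, fun _ => by simp, fun _ _ _ _ => mem_univ _⟩,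
        fun B hB _ => by rw [hatt B hB]⟩
    have hRu : MinAtt S.g.symm univ :=
      ⟨⟨isClosed_univ, univ_nonempty, fun _ => by simp, fun _ _ _ _ => mem_univ _⟩,
        fun B hB _ => by rw [hrep B hB]⟩
    obtain ⟨p, -, hp⟩ := hfixA univ hAu
    obtain ⟨B, e, V, V', he, hφB, hψB, hb₁, hb₂, hΦB, hΨB, hper⟩ := two_pots hf hN hφ hψ heq
    obtain ⟨u, hu, huc, hue⟩ := hscale e he
    rw [← hS] at hb₁ hb₂ hper
    obtain ⟨α, C, hC, hαC⟩ := trans_growth S hLP hAu hRu hb₁ hb₂ hΦB hΨB hper hp hu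
      (by linarith) (by linarith)
    rw [hS] at hb₁ hAu
    have hb₂' := hb₂.symm
    rw [hSs] at hb₂' hRu
    refine ⟨α / N, fun r s hr hrε hs hsε => ?_⟩
    obtain ⟨D₁, hD₁, h1⟩ := unif_cmp hf hN hLP' hAu hr₁ hφB he hb₁ hu (by linarith)
      (by linarith) hr hrε hs hsε
    obtain ⟨D₂, hD₂, h2⟩ := unif_cmp (f := F.symm) (f' := f'.symm) (conj_symm hf) hN hLPs hRu hr₁
      hψB he hb₂' hu (by linarith) (by linarith) hr hrε hs hsε
    rw [← hS] at h1
    rw [← hSs] at h2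
    set A₀ := Real.exp |α| with hA₀
    have hA₀0 : 0 < A₀ := Real.exp_pos _
    refine ⟨A₀ * (C * (D₁ + D₂)), by positivity, fun n x => ?_⟩
    obtain ⟨x1, x2⟩ := exp_floor hN α n
    obtain ⟨⟨a1, a2⟩, a3, a4⟩ := hαC (n / N)
    obtain ⟨b1, b2⟩ := h1 x p n
    obtain ⟨b3, b4⟩ := h2 x p n
    have p1 := lam_nonneg (g := F) hφB hs n (Wu F r x)
    have p2 := lam_nonneg (g := F.symm) hψB hs n (Wu F.symm r x)
    refine ⟨⟨?_, ?_⟩, ?_, ?_⟩
    · calc Real.exp (n * (α / N)) ≤ A₀ * Real.exp ((n / N : ℕ) * α) := x1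
        _ ≤ A₀ * (C * Lam S.g (fun y => birkhoffSum F φ N (h.symm y)) u (n / N) (Wu S.g u p)) := by
          gcongr
        _ ≤ A₀ * (C * (D₁ * Lam F φ s n (Wu F r x))) := by gcongr
        _ ≤ A₀ * (C * ((D₁ + D₂) * Lam F φ s n (Wu F r x))) := by
          have : D₁ ≤ D₁ + D₂ := by linarith
          gcongr
        _ = _ := by ring
    · calc Lam F φ s n (Wu F r x) ≤ D₁ * Lam S.g (fun y => birkhoffSum F φ N (h.symm y)) u (n / N)
            (Wu S.g u p) := b1
        _ ≤ D₁ * (C * Real.exp ((n / N : ℕ) * α)) := by gcongr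
        _ ≤ D₁ * (C * (A₀ * Real.exp (n * (α / N)))) := by gcongr
        _ ≤ (D₁ + D₂) * (C * (A₀ * Real.exp (n * (α / N)))) := by
          have : D₁ ≤ D₁ + D₂ := by linarith
          gcongr
        _ = _ := by ring
    · calc Real.exp (n * (α / N)) ≤ A₀ * Real.exp ((n / N : ℕ) * α) := x1
        _ ≤ A₀ * (C * Lam S.g.symm (fun y => birkhoffSum F.symm ψ N (h.symm y)) u (n / N)
            (Wu S.g.symm u p)) := by gcongr
        _ ≤ A₀ * (C * (D₂ * Lam F.symm ψ s n (Wu F.symm r x))) := by gcongr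
        _ ≤ A₀ * (C * ((D₁ + D₂) * Lam F.symm ψ s n (Wu F.symm r x))) := by
          have : D₂ ≤ D₁ + D₂ := by linarith
          gcongr
        _ = _ := by ring
    · calc Lam F.symm ψ s n (Wu F.symm r x) ≤ D₂ * Lam S.g.symm
            (fun y => birkhoffSum F.symm ψ N (h.symm y)) u (n / N) (Wu S.g.symm u p) := b3
        _ ≤ D₂ * (C * Real.exp ((n / N : ℕ) * α)) := by gcongr
        _ ≤ D₂ * (C * (A₀ * Real.exp (n * (α / N)))) := by gcongr
        _ ≤ (D₁ + D₂) * (C * (A₀ * Real.exp (n * (α / N)))) := by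
          have : D₂ ≤ D₁ + D₂ := by linarith
          gcongr
        _ = _ := by ring
  · -- the other case
    intro hnt
    have hnt' : ¬ ∀ A, IsAtt S.g A → A = univ := fun hc => hnt (htr.mpr hc)
    obtain ⟨A, R, p, q, x₀, hA', hR', hpA, hqR, hp, hq, hx1, hx2, hx3, hx4, -, hRB⟩ :=
      exists_pq hLP hfixA hfixR hnt'
    have hgi : ∀ y, S.g y = f'^[N] y := fun y => by rw [hS]; rfl
    have hcomm : ∀ x, f' (S.g x) = S.g (f' x) := by
      intro x
      rw [hgi, hgi, ← Function.iterate_succ_apply' f' N x, Function.iterate_succ_apply]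
    obtain ⟨hT, hTf⟩ := tot_att hLP hcomm
    have hne : Tot S.g ≠ univ := fun e => hnt' (unique_att hLP e)
    obtain ⟨χ, hχc, ⟨e, he, K, hχB⟩, hχA, hχR⟩ := bump hLP hN hS hT hTf hne
    have hper : ∀ y : Y, S.g y = y → f^[N] (h.symm y) = h.symm y := by
      intro y hy
      have h1 := back_iter hf N 1 y
      rw [Function.iterate_one, mul_one, ← hS, hy] at h1
      exact h1.symm
    refine ⟨h.symm p, h.symm q, ⟨N, hN, hper p hp⟩, ⟨N, hN, hper q hq⟩,
      ⟨fun x => χ (h x), fun t => ?_, ?_, ?_⟩, ?_⟩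
    · refine pot_conj hf (φ := fun y => t * χ y) ⟨continuous_const.mul hχc, e, he, |t| * K, ?_⟩
      intro n x y hxy
      have h1 := hχB n x y hxy
      unfold birkhoffSum
      rw [← Finset.sum_sub_distrib]
      refine (Finset.abs_sum_le_sum_abs _ _).trans ?_
      calc ∑ i ∈ Finset.range n, |t * χ (f'^[i] x) - t * χ (f'^[i] y)|
          = ∑ i ∈ Finset.range n, |t| * |χ (f'^[i] x) - χ (f'^[i] y)| := by
            refine Finset.sum_congr rfl fun i _ => ?_
            rw [← mul_sub, abs_mul]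
        _ = |t| * ∑ i ∈ Finset.range n, |χ (f'^[i] x) - χ (f'^[i] y)| := by rw [Finset.mul_sum]
        _ ≤ |t| * K := by gcongr
    · intro r hr y hy k
      have h1 := wu_up hf N (fun a b hab => hr₁ a b (hab.trans hr)) (h.symm p) ⟨y, hy, rfl⟩
      rw [h.apply_symm_apply, ← hS] at h1
      have h2 : h y ∈ A := hA'.1.sat p hpA _
        (WS.of_SR (hLP.cU _ _ (SR.mono h1 (by linarith))))
      have h3 : h (F^[k] y) = f'^[k] (h y) := conj_iter hf k y
      show χ (h (F^[k] y)) = 0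
      rw [h3]
      exact hχA _ ((inv_iter hTf k _).mpr ⟨A, hA', h2⟩)
    · intro r hr y hy k
      have h1 := wu_up (f := F.symm) (f' := f'.symm) (conj_symm hf) N
        (fun a b hab => hr₁ a b (hab.trans hr)) (h.symm q) ⟨y, hy, rfl⟩
      rw [h.apply_symm_apply, ← hSs] at h1
      have h2 : h y ∈ R := hR'.1.sat q hqR _
        (WS.of_SR (hLP.cS _ _ (SR.mono h1 (by linarith))))
      have h3 : h (F.symm^[k] y) = f'.symm^[k] (h y) := conj_iter (conj_symm hf) k y
      show χ (h (F.symm^[k] y)) = 1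
      rw [h3]
      apply hχR
      have h4 : ∀ x, f' x ∈ (Bas S.g (Tot S.g))ᶜ ↔ x ∈ (Bas S.g (Tot S.g))ᶜ := fun x => by
        rw [mem_compl_iff, mem_compl_iff, bas_map hcomm hTf]
      have h5 := (inv_iter h4 k (f'.symm^[k] (h y))).mp
      rw [iterR] at h5
      exact h5 (hRB h2)
    · intro φ ψ hφ hψ heq
      obtain ⟨B, e, V, V', he, hφB, hψB, hb₁, hb₂, hΦB, hΨB, hper'⟩ := two_pots hf hN hφ hψ heq
      obtain ⟨u, hu, huc, hue⟩ := hscale e he
      rw [← hS] at hb₁ hb₂ hper'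
      obtain ⟨V₂, hV₂⟩ := per_bound S hLP hA' he hb₁ hb₂ hΦB hΨB
        fun p _ T hT hp => (hper' p T hT hp).le
      obtain ⟨V₁, hV₁⟩ := per_bound S.symm (c := c) hLP.symm (A := R) hR' he
        (φ := fun y => birkhoffSum F.symm ψ N (h.symm y))
        (ψ := fun y => birkhoffSum F φ N (h.symm y)) hb₂.symm hb₁.symm hΨB hΦB (by
          intro p _ T hT hp
          have hp' : S.g^[T] p = p := by
            have h1 : S.g.symm^[T] p = p := hp
            have h2 := iterR S.g T p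
            rwa [h1] at h2
          show birkhoffSum S.g.symm (fun y => birkhoffSum F.symm ψ N (h.symm y)) T p ≤
            birkhoffSum S.g.symm (fun y => birkhoffSum F φ N (h.symm y)) T p
          rw [bsum_per _ hp', bsum_per _ hp']
          exact (hper' p T hT hp').ge)
      obtain ⟨α, β, C, hC, hαC⟩ := both hLP hb₁ hb₂ hΦB hΨB hp hq hA' hpA hR' hqR hx1 hx2 hx3 hx4
        hu huc hue hV₁ hV₂
      rw [hS] at hb₁
      have hb₂' := hb₂.symm
      rw [hSs] at hb₂'
      refine ⟨α / N, β / N, fun r s hr hrε hs hsε => ?_⟩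
      obtain ⟨D₁, hD₁, h1⟩ := pt_cmp hf hN hLP' hr₁ hφB he hb₁ hu (by linarith) hr hrε hs hsε
      obtain ⟨D₂, hD₂, h2⟩ := pt_cmp (f := F.symm) (f' := f'.symm) (conj_symm hf) hN hLPs hr₁
        hψB he hb₂' hu (by linarith) hr hrε hs hsε
      rw [← hS] at h1
      rw [← hSs] at h2
      have hps := fixed_symm hp
      have hqs := fixed_symm hq
      set A₀ := Real.exp (|α| + |β|) with hA₀
      have hA₀0 : 0 < A₀ := Real.exp_pos _
      have hα0 : Real.exp |α| ≤ A₀ := Real.exp_le_exp.mpr (by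
        have := abs_nonneg β
        linarith)
      have hβ0 : Real.exp |β| ≤ A₀ := Real.exp_le_exp.mpr (by
        have := abs_nonneg α
        linarith)
      refine ⟨N * A₀ * (C * (D₁ + D₂)), by positivity, fun n => ?_⟩
      obtain ⟨x1, x2⟩ := exp_floor hN α n
      obtain ⟨y1, y2⟩ := exp_floor hN β n
      have hZ := Z_floor hN α β n
      obtain ⟨⟨a1, a2⟩, ⟨a3, a4⟩, a5, a6⟩ := hαC (n / N)
      have b1 := h1 (h.symm p) (by rw [h.apply_symm_apply]; exact hp) n
      have b2 := h2 (h.symm q) (by rw [h.apply_symm_apply]; exact hqs) n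
      have b3 := h1 (h.symm q) (by rw [h.apply_symm_apply]; exact hq) n
      have b4 := h2 (h.symm p) (by rw [h.apply_symm_apply]; exact hps) n
      rw [h.apply_symm_apply] at b1 b2 b3 b4
      have hN1 : (1 : ℝ) ≤ N := by exact_mod_cast hN
      have hNA : A₀ ≤ N * A₀ := by nlinarith
      have p1 : ∀ x, 0 ≤ Lam F φ s n (Wu F r x) := fun x => lam_nonneg (g := F) hφB hs n _
      have p2 : ∀ x, 0 ≤ Lam F.symm ψ s n (Wu F.symm r x) := fun x =>
        lam_nonneg (g := F.symm) hψB hs n _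
      have hD₁' : D₁ ≤ D₁ + D₂ := by linarith
      have hD₂' : D₂ ≤ D₁ + D₂ := by linarith
      refine ⟨⟨?_, ?_⟩, ⟨?_, ?_⟩, ?_, ?_⟩
      · calc Real.exp (n * (α / N)) ≤ Real.exp |α| * Real.exp ((n / N : ℕ) * α) := x1
          _ ≤ (N * A₀) * Real.exp ((n / N : ℕ) * α) := by
            have := hα0.trans hNA
            gcongr
          _ ≤ (N * A₀) * (C * Lam S.g (fun y => birkhoffSum F φ N (h.symm y)) u (n / N)
              (Wu S.g u p)) := by gcongr
          _ ≤ (N * A₀) * (C * (D₁ * Lam F φ s n (Wu F r (h.symm p)))) := by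
            have := b1.2
            gcongr
          _ ≤ (N * A₀) * (C * ((D₁ + D₂) * Lam F φ s n (Wu F r (h.symm p)))) := by
            have := p1 (h.symm p)
            gcongr
          _ = _ := by ring
      · calc Lam F φ s n (Wu F r (h.symm p)) ≤ D₁ * Lam S.g
              (fun y => birkhoffSum F φ N (h.symm y)) u (n / N) (Wu S.g u p) := b1.1
          _ ≤ (D₁ + D₂) * (C * Real.exp ((n / N : ℕ) * α)) := by
            have := lam_nonneg (g := S.g) hΦB hu (n / N) (Wu S.g u p)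
            gcongr
          _ ≤ (D₁ + D₂) * (C * (Real.exp |α| * Real.exp (n * (α / N)))) := by gcongr
          _ ≤ (D₁ + D₂) * (C * ((N * A₀) * Real.exp (n * (α / N)))) := by
            have := hα0.trans hNA
            gcongr
          _ = _ := by ring
      · calc Real.exp (n * (β / N)) ≤ Real.exp |β| * Real.exp ((n / N : ℕ) * β) := y1
          _ ≤ (N * A₀) * Real.exp ((n / N : ℕ) * β) := by
            have := hβ0.trans hNA
            gcongr
          _ ≤ (N * A₀) * (C * Lam S.g.symm (fun y => birkhoffSum F.symm ψ N (h.symm y)) u (n / N)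
              (Wu S.g.symm u q)) := by gcongr
          _ ≤ (N * A₀) * (C * (D₂ * Lam F.symm ψ s n (Wu F.symm r (h.symm q)))) := by
            have := b2.2
            gcongr
          _ ≤ (N * A₀) * (C * ((D₁ + D₂) * Lam F.symm ψ s n (Wu F.symm r (h.symm q)))) := by
            have := p2 (h.symm q)
            gcongr
          _ = _ := by ring
      · calc Lam F.symm ψ s n (Wu F.symm r (h.symm q)) ≤ D₂ * Lam S.g.symm
              (fun y => birkhoffSum F.symm ψ N (h.symm y)) u (n / N) (Wu S.g.symm u q) := b2.1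
          _ ≤ (D₁ + D₂) * (C * Real.exp ((n / N : ℕ) * β)) := by
            have := lam_nonneg (g := S.g.symm) hΨB hu (n / N) (Wu S.g.symm u q)
            gcongr
          _ ≤ (D₁ + D₂) * (C * (Real.exp |β| * Real.exp (n * (β / N)))) := by gcongr
          _ ≤ (D₁ + D₂) * (C * ((N * A₀) * Real.exp (n * (β / N)))) := by
            have := hβ0.trans hNA
            gcongr
          _ = _ := by ring
      · calc Z (α / N) (β / N) n ≤ N * A₀ * Z α β (n / N) := hZ
          _ ≤ N * A₀ * (C * Lam S.g (fun y => birkhoffSum F φ N (h.symm y)) u (n / N)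
              (Wu S.g u q)) := by gcongr
          _ ≤ N * A₀ * (C * (D₁ * Lam F φ s n (Wu F r (h.symm q)))) := by
            have := b3.2
            gcongr
          _ ≤ N * A₀ * (C * ((D₁ + D₂) * Lam F φ s n (Wu F r (h.symm q)))) := by
            have := p1 (h.symm q)
            gcongr
          _ = _ := by ring
      · calc Z (α / N) (β / N) n ≤ N * A₀ * Z α β (n / N) := hZ
          _ ≤ N * A₀ * (C * Lam S.g.symm (fun y => birkhoffSum F.symm ψ N (h.symm y)) u (n / N)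
              (Wu S.g.symm u p)) := by gcongr
          _ ≤ N * A₀ * (C * (D₂ * Lam F.symm ψ s n (Wu F.symm r (h.symm p)))) := by
            have := b4.2
            gcongr
          _ ≤ N * A₀ * (C * ((D₁ + D₂) * Lam F.symm ψ s n (Wu F.symm r (h.symm p)))) := by
            have := p2 (h.symm p)
            gcongr
          _ = _ := by ring

end Pool.Agent.V7H52.AG
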