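import Pool.Agent.V7H52.AG.A7

set_option autoImplicit false
set_option linter.unusedSectionVars false

open Filter Topology Set Metric MeasureTheory
open scoped Manifold ContDiff

namespace Pool.Agent.V7H52.AG

open Pool.Agent.H789R2.AN Pool.Agent.Y330.G Pool.Agent.N520.T Pool.Agent.H721R2
  Pool.Agent.Y321.PJ

/-- Elementary consequences of the lower bounds. -/
theorem gap_prod {α β C D D' Up Uq Sp Sq : ℝ} (hC : 0 < C) (n : ℕ)
    (h1 : Up ≤ C * Real.exp (n * α)) (h2 : Sq ≤ C * Real.exp (n * β))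
    (h3 : Z α β n ≤ C * Uq) (h4 : Z α β n ≤ C * Sp) (hUp : 0 < Up) (hSq : 0 < Sq)
    (hD : Uq ≤ D * Up) (hD' : Sp ≤ D' * Sq) : ((n : ℝ) + 1) ^ 2 ≤ C ^ 4 * (D * D') := by
  have hZ := Z_pos α β n
  have hUq : 0 < Uq := by
    by_contra hcon
    push Not at hcon
    nlinarith
  have hSp : 0 < Sp := by
    by_contra hcon
    push Not at hcon
    nlinarith
  have hD0 : 0 < D := by
    by_contra hcon
    push Not at hcon
    nlinarith
  have hD0' : 0 < D' := by
    by_contra hcon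
    push Not at hcon
    nlinarith
  have a1 : Z α β n ≤ C ^ 2 * D * Real.exp (n * α) := by
    calc Z α β n ≤ C * Uq := h3
      _ ≤ C * (D * Up) := by gcongr
      _ ≤ C * (D * (C * Real.exp (n * α))) := by gcongr
      _ = _ := by ring
  have a2 : Z α β n ≤ C ^ 2 * D' * Real.exp (n * β) := by
    calc Z α β n ≤ C * Sp := h4
      _ ≤ C * (D' * Sq) := by gcongr
      _ ≤ C * (D' * (C * Real.exp (n * β))) := by gcongr
      _ = _ := by ring
  have a3 := Z_mid α β n
  set x := Real.exp (n * ((α + β) / 2)) with hx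
  have hx0 : 0 < x := Real.exp_pos _
  have e1 : Real.exp (n * α) * Real.exp (n * β) = x ^ 2 := by
    rw [hx, ← Real.exp_add, ← Real.exp_nat_mul]
    congr 1
    push_cast
    ring
  have a4 : (((n : ℝ) + 1) * x) ^ 2 ≤ (C ^ 4 * (D * D')) * x ^ 2 := by
    calc (((n : ℝ) + 1) * x) ^ 2 ≤ Z α β n ^ 2 := by gcongr
      _ = Z α β n * Z α β n := by ring
      _ ≤ (C ^ 2 * D * Real.exp (n * α)) * (C ^ 2 * D' * Real.exp (n * β)) := by gcongr
      _ = C ^ 4 * (D * D') * (Real.exp (n * α) * Real.exp (n * β)) := by ring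
      _ = _ := by rw [e1]
  rw [mul_pow] at a4
  exact le_of_mul_le_mul_right a4 (by positivity)

theorem gap_one {α β C D Up Uq : ℝ} (hC : 0 < C) (n : ℕ)
    (h1 : Up ≤ C * Real.exp (n * α)) (h3 : Z α β n ≤ C * Uq) (hUp : 0 < Up)
    (hD : Uq ≤ D * Up) : Z α β n ≤ C ^ 2 * D * Real.exp (n * α) := by
  have hZ := Z_pos α β n
  have hUq : 0 < Uq := by
    by_contra hcon
    push Not at hcon
    nlinarith
  have hD0 : 0 < D := by
    by_contra hcon
    push Not at hcon
    nlinarith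
  calc Z α β n ≤ C * Uq := h3
    _ ≤ C * (D * Up) := by gcongr
    _ ≤ C * (D * (C * Real.exp (n * α))) := by gcongr
    _ = _ := by ring

/-- Exponential gap. -/
theorem gap_exp {α β C : ℝ} (hC : 0 < C) (hαβ : α < β) : ∃ κ > 0, ∀ n : ℕ,
    ¬ Z α β n ≤ C ^ 2 * (κ * Real.exp (κ * n)) * Real.exp (n * α) := by
  refine ⟨min (β - α) (1 / (2 * C ^ 2)), lt_min (by linarith) (by positivity), fun n hn => ?_⟩
  set κ := min (β - α) (1 / (2 * C ^ 2)) with hκ
  have hκ0 : 0 < κ := lt_min (by linarith) (by positivity)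
  have k1 : κ ≤ β - α := min_le_left _ _
  have k2 : κ ≤ 1 / (2 * C ^ 2) := min_le_right _ _
  have h1 := Z_left β α n
  rw [Z_symm] at h1
  have h2 : Real.exp (κ * n) * Real.exp (n * α) ≤ Real.exp (n * β) := by
    rw [← Real.exp_add]
    apply Real.exp_le_exp.mpr
    have : (0 : ℝ) ≤ n := Nat.cast_nonneg n
    nlinarith
  have h3 : C ^ 2 * κ ≤ 1 / 2 := by
    calc C ^ 2 * κ ≤ C ^ 2 * (1 / (2 * C ^ 2)) := by gcongr
      _ = 1 / 2 := by field_simp
  have h4 : Real.exp (n * β) ≤ 1 / 2 * Real.exp (n * β) := by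
    calc Real.exp (n * β) ≤ C ^ 2 * (κ * Real.exp (κ * n)) * Real.exp (n * α) := h1.trans hn
      _ = (C ^ 2 * κ) * (Real.exp (κ * n) * Real.exp (n * α)) := by ring
      _ ≤ (C ^ 2 * κ) * Real.exp (n * β) := by gcongr
      _ ≤ 1 / 2 * Real.exp (n * β) := by gcongr
  have := Real.exp_pos (n * β)
  linarith

/-- Linear gap. -/
theorem gap_lin {α β C : ℝ} (hC : 0 < C) (hαβ : α ≤ β) : ∃ κ > 0, ∀ n : ℕ,
    ¬ Z α β n ≤ C ^ 2 * (κ * n) * Real.exp (n * α) := by
  refine ⟨1 / C ^ 2, by positivity, fun n hn => ?_⟩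
  have h1 := (Z_lin hαβ n).trans hn
  have e : C ^ 2 * (1 / C ^ 2 * n) = (n : ℝ) := by field_simp
  rw [e] at h1
  have := le_of_mul_le_mul_right h1 (Real.exp_pos _)
  linarith

section shift

variable {X : Type*} [MetricSpace X] [CompactSpace X]

/-- The partition sums of a potential with constant sums. -/
theorem lam_const {g : X ≃ₜ X} {φ : X → ℝ} {s : ℝ} {n : ℕ} {L : Set X} {t : ℝ}
    (hs : 0 < s) (h : ∀ y ∈ L, birkhoffSum g φ n y = t) :
    Lam g φ s n L ≤ Real.exp t * Lam g (fun _ => 0) s n L := by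
  refine lam_le fun F hF hsep => ?_
  have h1 := le_lam (φ := fun _ : X => (0 : ℝ)) (B := 0) (fun x => by simp) hs hF hsep
  have h2 : ps g φ n F ≤ Real.exp t * ps g (fun _ => 0) n F := by
    unfold ps
    rw [Finset.mul_sum]
    refine Finset.sum_le_sum fun y hy => ?_
    rw [h y (hF hy)]
    have : birkhoffSum g (fun _ : X => (0 : ℝ)) n y = 0 := by simp [birkhoffSum]
    rw [this, Real.exp_zero, mul_one]
  calc ps g φ n F ≤ Real.exp t * ps g (fun _ => 0) n F := h2
    _ ≤ _ := by gcongr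

theorem lam_point {g : X ≃ₜ X} {φ : X → ℝ} {B s : ℝ} (hφ : ∀ x, |φ x| ≤ B) (hs : 0 < s) {n : ℕ}
    {L : Set X} {x : X} (hx : x ∈ L) : Real.exp (birkhoffSum g φ n x) ≤ Lam g φ s n L := by
  have h1 := le_lam (g := g) hφ hs (n := n) (L := L) (F := {x}) (by simpa using hx)
    (fun y hy z hz hne => by
      rw [Finset.mem_singleton] at hy hz
      exact absurd (hy.trans hz.symm) hne)
  simpa [ps] using h1

end shift

end Pool.Agent.V7H52.AG
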